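import Mathlib

set_option autoImplicit false

open Complex

namespace Pool.Agent.J4H86.PK

/-- the cosine bound -/
theorem cos_arg_ge (α : ℝ) (hα0 : 0 < α) (hα1 : α < 1) (w : ℂ) (hw : 0 ≤ w.re) :
    Real.cos (α * (Real.pi / 2)) ≤ Real.cos (arg w * α) := by
  have h1 : |arg w| ≤ Real.pi / 2 := abs_arg_le_pi_div_two_iff.2 hw
  rw [← Real.cos_abs (arg w * α), abs_mul, abs_of_pos hα0, mul_comm |arg w| α]
  apply Real.cos_le_cos_of_nonneg_of_le_pi
  · positivity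
  · nlinarith [Real.pi_pos]
  · exact mul_le_mul_of_nonneg_left h1 hα0.le

theorem cpos (α : ℝ) (hα0 : 0 < α) (hα1 : α < 1) : 0 < Real.cos (α * (Real.pi / 2)) := by
  apply Real.cos_pos_of_mem_Ioo
  have := Real.pi_pos
  constructor <;> nlinarith

theorem re_pow_ge (α : ℝ) (hα0 : 0 < α) (hα1 : α < 1) (w : ℂ) (hw : 0 ≤ w.re) :
    Real.cos (α * (Real.pi / 2)) * ‖w‖ ^ α ≤ (w ^ (α : ℂ)).re := by
  rw [cpow_ofReal_re, mul_comm]
  exact mul_le_mul_of_nonneg_left (cos_arg_ge α hα0 hα1 w hw) (by positivity)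

theorem inner_nonneg (α : ℝ) (hα0 : 0 < α) (hα1 : α < 1) (w : ℂ) (hw : 0 ≤ w.re) :
    0 ≤ w.re * (w ^ (α : ℂ)).re + w.im * (w ^ (α : ℂ)).im := by
  rw [cpow_ofReal_re, cpow_ofReal_im]
  have h1 : w.re = ‖w‖ * Real.cos (arg w) := (norm_mul_cos_arg w).symm
  have h2 : w.im = ‖w‖ * Real.sin (arg w) := (norm_mul_sin_arg w).symm
  have e : w.re * (‖w‖ ^ α * Real.cos (arg w * α)) + w.im * (‖w‖ ^ α * Real.sin (arg w * α)) =
      ‖w‖ * ‖w‖ ^ α * Real.cos (arg w - arg w * α) := by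
    rw [Real.cos_sub]
    calc w.re * (‖w‖ ^ α * Real.cos (arg w * α)) + w.im * (‖w‖ ^ α * Real.sin (arg w * α))
        = (‖w‖ * Real.cos (arg w)) * (‖w‖ ^ α * Real.cos (arg w * α)) +
          (‖w‖ * Real.sin (arg w)) * (‖w‖ ^ α * Real.sin (arg w * α)) := by
          rw [norm_mul_cos_arg, norm_mul_sin_arg]
      _ = _ := by ring
  rw [e]
  apply mul_nonneg (by positivity)
  have h3 : |arg w| ≤ Real.pi / 2 := abs_arg_le_pi_div_two_iff.2 hw
  rw [← Real.cos_abs]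
  apply Real.cos_nonneg_of_mem_Icc
  have e2 : arg w - arg w * α = arg w * (1 - α) := by ring
  rw [e2, abs_mul, abs_of_pos (by linarith : 0 < 1 - α)]
  have h4 : 0 ≤ |arg w| := abs_nonneg _
  have := Real.pi_pos
  constructor <;> nlinarith

/-- the denominator -/
noncomputable def kk (α A : ℝ) (w : ℂ) : ℂ := (A : ℂ) * w + w ^ (α : ℂ)

theorem kk_norm_sq (α A : ℝ) (hα0 : 0 < α) (hα1 : α < 1) (hA : 0 ≤ A) (w : ℂ) (hw : 0 ≤ w.re) :
    (A * ‖w‖) ^ 2 + (‖w‖ ^ α) ^ 2 ≤ ‖kk α A w‖ ^ 2 := by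
  have h1 := inner_nonneg α hα0 hα1 w hw
  have h2 : ‖w ^ (α : ℂ)‖ = ‖w‖ ^ α := norm_cpow_real w α
  have h3 : ‖w ^ (α : ℂ)‖ ^ 2 = (w ^ (α : ℂ)).re ^ 2 + (w ^ (α : ℂ)).im ^ 2 := by
    rw [Complex.sq_norm, Complex.normSq_apply]
    ring
  have h4 : ‖w‖ ^ 2 = w.re ^ 2 + w.im ^ 2 := by
    rw [Complex.sq_norm, Complex.normSq_apply]
    ring
  have h5 : ‖kk α A w‖ ^ 2 = (A * w.re + (w ^ (α : ℂ)).re) ^ 2 +
      (A * w.im + (w ^ (α : ℂ)).im) ^ 2 := by
    rw [Complex.sq_norm, Complex.normSq_apply]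
    unfold kk
    simp only [add_re, add_im, mul_re, mul_im, ofReal_re, ofReal_im]
    ring
  rw [h5, ← h2, mul_pow, h3, h4]
  nlinarith [mul_nonneg hA h1]

theorem kk_ge1 (α A : ℝ) (hα0 : 0 < α) (hα1 : α < 1) (hA : 0 ≤ A) (w : ℂ) (hw : 0 ≤ w.re) :
    A * ‖w‖ ≤ ‖kk α A w‖ := by
  apply le_of_sq_le_sq _ (norm_nonneg _)
  have := kk_norm_sq α A hα0 hα1 hA w hw
  nlinarith [sq_nonneg (‖w‖ ^ α)]

theorem kk_ge2 (α A : ℝ) (hα0 : 0 < α) (hα1 : α < 1) (hA : 0 ≤ A) (w : ℂ) (hw : 0 ≤ w.re) :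
    ‖w‖ ^ α ≤ ‖kk α A w‖ := by
  apply le_of_sq_le_sq _ (norm_nonneg _)
  have := kk_norm_sq α A hα0 hα1 hA w hw
  nlinarith [sq_nonneg (A * ‖w‖)]

theorem kk_le (α A : ℝ) (hA : 0 ≤ A) (w : ℂ) : ‖kk α A w‖ ≤ A * ‖w‖ + ‖w‖ ^ α := by
  unfold kk
  refine (norm_add_le _ _).trans ?_
  rw [norm_mul, norm_real, Real.norm_eq_abs, abs_of_nonneg hA, norm_cpow_real]

theorem kk_re (α A : ℝ) (hα0 : 0 < α) (hα1 : α < 1) (hA : 0 ≤ A) (w : ℂ) (hw : 0 ≤ w.re) :
    Real.cos (α * (Real.pi / 2)) * ‖w‖ ^ α ≤ (kk α A w).re := by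
  unfold kk
  simp only [add_re, mul_re, ofReal_re, ofReal_im, zero_mul, sub_zero]
  have h1 := re_pow_ge α hα0 hα1 w hw
  have h2 : 0 ≤ A * w.re := mul_nonneg hA hw
  linarith

theorem kk_ne (α A : ℝ) (hα0 : 0 < α) (hα1 : α < 1) (hA : 0 ≤ A) (w : ℂ) (hw : 0 ≤ w.re)
    (h0 : w ≠ 0) : kk α A w ≠ 0 := by
  intro h
  have h1 := kk_ge2 α A hα0 hα1 hA w hw
  rw [h, norm_zero] at h1
  have : 0 < ‖w‖ := norm_pos_iff.2 h0
  have h2 : 0 < ‖w‖ ^ α := by positivity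
  linarith

/-- the power is Hölder continuous on the closed right half-plane -/
theorem pow_holder (α : ℝ) (hα0 : 0 < α) (hα1 : α < 1) (w v : ℂ) (hw : 0 ≤ w.re) (hv : 0 ≤ v.re) :
    ‖w ^ (α : ℂ) - v ^ (α : ℂ)‖ ≤ 4 * ‖w - v‖ ^ α := by
  wlog h : ‖v‖ ≤ ‖w‖ generalizing v w with H
  · rw [norm_sub_rev, norm_sub_rev w v]
    exact H v w hv hw (not_le.1 h).le
  rcases le_or_gt (‖w‖ / 2) ‖w - v‖ with h1 | h1
  · -- far apart
    have h2 : ‖w‖ ^ α ≤ 2 * ‖w - v‖ ^ α := by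
      have h3 : ‖w‖ ≤ 2 * ‖w - v‖ := by linarith
      calc ‖w‖ ^ α ≤ (2 * ‖w - v‖) ^ α := Real.rpow_le_rpow (norm_nonneg _) h3 hα0.le
        _ = 2 ^ α * ‖w - v‖ ^ α := Real.mul_rpow (by norm_num) (norm_nonneg _)
        _ ≤ 2 * ‖w - v‖ ^ α := by
            apply mul_le_mul_of_nonneg_right _ (by positivity)
            calc (2 : ℝ) ^ α ≤ 2 ^ (1 : ℝ) :=
                  Real.rpow_le_rpow_of_exponent_le (by norm_num) hα1.le
              _ = 2 := Real.rpow_one 2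
    have h3 : ‖v‖ ^ α ≤ ‖w‖ ^ α := Real.rpow_le_rpow (norm_nonneg _) h hα0.le
    have h4 := norm_sub_le (w ^ (α : ℂ)) (v ^ (α : ℂ))
    rw [norm_cpow_real, norm_cpow_real] at h4
    linarith
  · -- close together
    have hw0 : 0 < ‖w‖ := by
      have := norm_nonneg (w - v)
      linarith
    set m : ℝ := ‖w‖ / 2 with hm
    have hm0 : 0 < m := by positivity
    have hseg : ∀ x ∈ segment ℝ v w, 0 ≤ x.re ∧ m ≤ ‖x‖ := by
      intro x hx
      obtain ⟨a, b, ha, hb, hab, rfl⟩ := hx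
      constructor
      · simp only [add_re, real_smul, mul_re, ofReal_re, ofReal_im, zero_mul, sub_zero]
        positivity
      · have e : a • v + b • w = w - a • (w - v) := by
          have : b = 1 - a := by linarith
          rw [this]
          simp only [sub_smul, one_smul, smul_sub]
          abel
        rw [e]
        have h2 := norm_sub_norm_le w (a • (w - v))
        rw [norm_smul, Real.norm_eq_abs, abs_of_nonneg ha] at h2
        have h3 : a * ‖w - v‖ ≤ 1 * ‖w - v‖ :=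
          mul_le_mul_of_nonneg_right (by linarith) (norm_nonneg _)
        linarith
    have hder : ∀ x ∈ segment ℝ v w, HasDerivWithinAt (fun x : ℂ => x ^ (α : ℂ))
        ((α : ℂ) * x ^ ((α : ℂ) - 1)) (segment ℝ v w) x := by
      intro x hx
      obtain ⟨h2, h3⟩ := hseg x hx
      have hslit : x ∈ slitPlane := by
        rw [mem_slitPlane_iff]
        by_contra hcon
        push Not at hcon
        obtain ⟨h4, h5⟩ := hcon
        have h6 : x = 0 := by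
          apply Complex.ext
          · exact le_antisymm h4 h2
          · exact h5
        rw [h6, norm_zero] at h3
        linarith
      exact (hasStrictDerivAt_id x |>.cpow_const hslit |>.hasDerivAt.congr_deriv (by simp)).hasDerivWithinAt
    have hbound : ∀ x ∈ segment ℝ v w, ‖(α : ℂ) * x ^ ((α : ℂ) - 1)‖ ≤ m ^ (α - 1) := by
      intro x hx
      obtain ⟨h2, h3⟩ := hseg x hx
      have e : ((α : ℂ) - 1) = ((α - 1 : ℝ) : ℂ) := by push_cast; ring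
      rw [norm_mul, norm_real, Real.norm_eq_abs, abs_of_pos hα0, e, norm_cpow_real]
      have h4 : ‖x‖ ^ (α - 1) ≤ m ^ (α - 1) :=
        Real.rpow_le_rpow_of_nonpos hm0 h3 (by linarith)
      have h5 : 0 ≤ ‖x‖ ^ (α - 1) := by positivity
      nlinarith
    have h2 := (convex_segment v w).norm_image_sub_le_of_norm_hasDerivWithin_le hder hbound
      (left_mem_segment ℝ v w) (right_mem_segment ℝ v w)
    refine h2.trans ?_
    rcases eq_or_ne w v with hwv | hwv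
    · rw [hwv, sub_self, norm_zero, mul_zero]
      positivity
    · have hd : 0 < ‖w - v‖ := norm_pos_iff.2 (sub_ne_zero.2 hwv)
      have h3 : m ^ (α - 1) ≤ ‖w - v‖ ^ (α - 1) :=
        Real.rpow_le_rpow_of_nonpos hd h1.le (by linarith)
      calc m ^ (α - 1) * ‖w - v‖ ≤ ‖w - v‖ ^ (α - 1) * ‖w - v‖ :=
            mul_le_mul_of_nonneg_right h3 hd.le
        _ = ‖w - v‖ ^ α := by
            rw [← Real.rpow_add_one hd.ne']
            congr 1
            ring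
        _ ≤ 4 * ‖w - v‖ ^ α := by
            have : 0 ≤ ‖w - v‖ ^ α := by positivity
            linarith

theorem kk_holder (α A : ℝ) (hα0 : 0 < α) (hα1 : α < 1) (hA : 0 ≤ A) (w v : ℂ) (hw : 0 ≤ w.re)
    (hv : 0 ≤ v.re) : ‖kk α A w - kk α A v‖ ≤ A * ‖w - v‖ + 4 * ‖w - v‖ ^ α := by
  have e : kk α A w - kk α A v = (A : ℂ) * (w - v) + (w ^ (α : ℂ) - v ^ (α : ℂ)) := by
    unfold kk
    ring
  rw [e]
  refine (norm_add_le _ _).trans ?_
  rw [norm_mul, norm_real, Real.norm_eq_abs, abs_of_nonneg hA]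
  have := pow_holder α hα0 hα1 w v hw hv
  linarith

end Pool.Agent.J4H86.PK
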