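import Mathlib
import Pool.Agent.J4H86.PK.Power

set_option autoImplicit false

open Complex Metric
open scoped Topology

namespace Pool.Agent.J4H86.PK

/-- the shifted variable -/
noncomputable def ww (ζ z : ℂ) : ℂ := 1 - z * (starRingEnd ℂ) ζ

theorem ww_norm (ζ z : ℂ) (h : ‖ζ‖ = 1) : ‖ww ζ z‖ = ‖ζ - z‖ := by
  have h1 : ζ * (starRingEnd ℂ) ζ = 1 := by
    rw [Complex.mul_conj, Complex.normSq_eq_norm_sq, h]
    norm_num
  have e : ww ζ z = (ζ - z) * (starRingEnd ℂ) ζ := by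
    unfold ww
    rw [sub_mul, h1]
  rw [e, norm_mul, Complex.norm_conj, h, mul_one]

theorem ww_re (ζ z : ℂ) (h : ‖ζ‖ = 1) (hz : ‖z‖ ≤ 1) : 0 ≤ (ww ζ z).re := by
  unfold ww
  have h1 : (z * (starRingEnd ℂ) ζ).re ≤ ‖z * (starRingEnd ℂ) ζ‖ := Complex.re_le_norm _
  rw [norm_mul, Complex.norm_conj, h, mul_one] at h1
  simp only [sub_re, one_re]
  linarith

theorem ww_sub (ζ z z' : ℂ) (h : ‖ζ‖ = 1) : ‖ww ζ z - ww ζ z'‖ = ‖z - z'‖ := by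
  have e : ww ζ z - ww ζ z' = (z' - z) * (starRingEnd ℂ) ζ := by
    unfold ww
    ring
  rw [e, norm_mul, Complex.norm_conj, h, mul_one, norm_sub_rev]

theorem ww_ne (ζ z : ℂ) (h : ‖ζ‖ = 1) (hz : z ≠ ζ) : ww ζ z ≠ 0 := by
  rw [← norm_pos_iff, ww_norm ζ z h, norm_pos_iff, sub_ne_zero]
  exact hz.symm

/-- the data of the construction -/
structure Data (α : ℝ) {ι : Type} (ζ : ι → ℂ) (m1 C : ℝ) : Prop where
  a0 : 0 < α
  a1 : α < 1
  norm1 : ∀ n, ‖ζ n‖ = 1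
  ne1 : ∀ n, ζ n ≠ 1
  inj : Function.Injective ζ
  sumM : Summable (fun n => ‖1 - ζ n‖ ^ (1 / α - 1))
  leM : ∑' n, ‖1 - ζ n‖ ^ (1 / α - 1) ≤ m1
  sumC : ∀ m, Summable (fun n => ‖1 - ζ n‖ ^ (1 / α - 1) * ‖1 - ζ n‖ / ‖ζ n - ζ m‖)
  leC : ∀ m, ∑' n, ‖1 - ζ n‖ ^ (1 / α - 1) * ‖1 - ζ n‖ / ‖ζ n - ζ m‖ ≤ C

variable {α : ℝ} {ι : Type} {ζ : ι → ℂ} {m1 C : ℝ}

theorem Data.Rpos (h : Data α ζ m1 C) (n : ι) : 0 < ‖1 - ζ n‖ :=
  norm_pos_iff.2 (sub_ne_zero.2 (h.ne1 n).symm)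

theorem Data.Mpos (h : Data α ζ m1 C) (n : ι) : 0 < ‖1 - ζ n‖ ^ (1 / α - 1) := by
  have := h.Rpos n
  positivity

theorem Data.Mle (h : Data α ζ m1 C) (n : ι) : ‖1 - ζ n‖ ^ (1 / α - 1) ≤ m1 :=
  (h.sumM.le_tsum n (fun m _ => (h.Mpos m).le)).trans h.leM

theorem Data.m1_nonneg (h : Data α ζ m1 C) : 0 ≤ m1 :=
  (tsum_nonneg (fun n => (h.Mpos n).le)).trans h.leM

/-- the far estimate -/
theorem Data.far [Nonempty ι] (h : Data α ζ m1 C) (z : ℂ) (hz : z ≠ 1) :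
    ∃ n0, ∀ n, n ≠ n0 → ‖1 - ζ n‖ ^ (1 / α - 1) / ‖ζ n - z‖ ≤
      1 / ‖1 - z‖ * (2 * ‖1 - ζ n‖ ^ (1 / α - 1) +
        4 * (‖1 - ζ n‖ ^ (1 / α - 1) * ‖1 - ζ n‖ / ‖ζ n - ζ n0‖)) := by
  classical
  set ρ := ‖1 - z‖ with hρ
  have hρ0 : 0 < ρ := norm_pos_iff.2 (sub_ne_zero.2 hz.symm)
  have hp : 0 < 1 / α - 1 := by
    have := h.a0
    have h1 : 1 < 1 / α := by
      rw [lt_div_iff₀ h.a0, one_mul]
      exact h.a1
    linarith
  -- finitely many relevant points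
  have hfin : {n | ρ / 2 < ‖1 - ζ n‖}.Finite := by
    have h1 := h.sumM.tendsto_cofinite_zero
    have h2 : ∀ᶠ n in Filter.cofinite, ‖1 - ζ n‖ ^ (1 / α - 1) < (ρ / 2) ^ (1 / α - 1) :=
      h1.eventually_lt_const (by positivity)
    rw [Filter.eventually_cofinite] at h2
    refine h2.subset (fun n hn => ?_)
    simp only [Set.mem_ofPred_eq, not_lt] at hn ⊢
    exact Real.rpow_le_rpow (by positivity) hn.le hp.le
  set S : Set ι := {n | ρ / 2 < ‖1 - ζ n‖ ∧ ‖1 - ζ n‖ < 2 * ρ} with hS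
  have hSfin : S.Finite := hfin.subset (fun n hn => hn.1)
  obtain ⟨n0, hn0⟩ : ∃ n0, ∀ n ∈ S, n0 ∈ S ∧ ‖ζ n0 - z‖ ≤ ‖ζ n - z‖ := by
    rcases S.eq_empty_or_nonempty with hemp | hne
    · obtain ⟨n0⟩ := (inferInstance : Nonempty ι)
      refine ⟨n0, fun n hn => ?_⟩
      rw [hemp] at hn
      exact absurd hn (Set.notMem_empty n)
    · obtain ⟨n0, hn0, hmin⟩ := hSfin.exists_minimalFor (fun n => ‖ζ n - z‖) S hne
      refine ⟨n0, fun n hn => ⟨hn0, ?_⟩⟩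
      rcases le_total (‖ζ n0 - z‖) (‖ζ n - z‖) with h1 | h1
      · exact h1
      · exact hmin hn h1
  refine ⟨n0, fun n hn => ?_⟩
  have hM := h.Mpos n
  have hR := h.Rpos n
  have hd : 0 < ‖ζ n - ζ n0‖ := norm_pos_iff.2 (sub_ne_zero.2 (fun h1 => hn (h.inj h1)))
  set Mn := ‖1 - ζ n‖ ^ (1 / α - 1) with hMn
  have hnn : 0 ≤ 4 * (Mn * ‖1 - ζ n‖ / ‖ζ n - ζ n0‖) := by positivity
  have hfar : ρ / 2 ≤ ‖ζ n - z‖ → Mn / ‖ζ n - z‖ ≤
      1 / ρ * (2 * Mn + 4 * (Mn * ‖1 - ζ n‖ / ‖ζ n - ζ n0‖)) := by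
    intro h1
    calc Mn / ‖ζ n - z‖ ≤ Mn / (ρ / 2) := div_le_div_of_nonneg_left hM.le (by positivity) h1
      _ = 1 / ρ * (2 * Mn) := by field_simp
      _ ≤ _ := mul_le_mul_of_nonneg_left (by linarith) (by positivity)
  have htri1 : ρ ≤ ‖1 - ζ n‖ + ‖ζ n - z‖ := by
    have := norm_add_le (1 - ζ n) (ζ n - z)
    rwa [sub_add_sub_cancel] at this
  have htri2 : ‖1 - ζ n‖ ≤ ρ + ‖ζ n - z‖ := by
    have := norm_add_le (1 - z) (z - ζ n)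
    rw [sub_add_sub_cancel, norm_sub_rev z] at this
    exact this
  by_cases hnS : n ∈ S
  · obtain ⟨hn0S, h1⟩ := hn0 n hnS
    have h2 : ‖ζ n - ζ n0‖ ≤ 2 * ‖ζ n - z‖ := by
      have := norm_sub_le (ζ n - z) (ζ n0 - z)
      rw [sub_sub_sub_cancel_right] at this
      linarith
    have h3 : 0 < ‖ζ n - z‖ := by linarith
    have h4 : Mn / ‖ζ n - z‖ ≤ 2 * (Mn / ‖ζ n - ζ n0‖) := by
      rw [div_le_iff₀ h3]
      have h5 : Mn / ‖ζ n - ζ n0‖ * ‖ζ n - ζ n0‖ = Mn := div_mul_cancel₀ _ hd.ne'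
      have h6 : 0 ≤ Mn / ‖ζ n - ζ n0‖ := by positivity
      nlinarith
    have h5 : 2 * (Mn / ‖ζ n - ζ n0‖) ≤ 1 / ρ * (4 * (Mn * ‖1 - ζ n‖ / ‖ζ n - ζ n0‖)) := by
      have e : 1 / ρ * (4 * (Mn * ‖1 - ζ n‖ / ‖ζ n - ζ n0‖)) =
          (4 * ‖1 - ζ n‖ / ρ) * (Mn / ‖ζ n - ζ n0‖) := by
        field_simp
      rw [e]
      apply mul_le_mul_of_nonneg_right _ (by positivity)
      rw [le_div_iff₀ hρ0]
      linarith [hnS.1]
    refine (h4.trans h5).trans ?_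
    apply mul_le_mul_of_nonneg_left _ (by positivity)
    linarith
  · apply hfar
    simp only [hS, Set.mem_ofPred_eq, not_and_or, not_lt] at hnS
    rcases hnS with h1 | h1
    · linarith
    · linarith

/-- the summands -/
noncomputable def KK (α κ : ℝ) (ζ : ι → ℂ) (n : ι) (z : ℂ) : ℂ :=
  (κ : ℂ) / kk α (1 / ‖1 - ζ n‖ ^ (1 / α - 1)) (ww (ζ n) z)

theorem Data.KK_le (h : Data α ζ m1 C) (κ : ℝ) (hκ : 0 < κ) (n : ι) (z : ℂ) (hz : ‖z‖ ≤ 1) :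
    ‖KK α κ ζ n z‖ ≤ κ * (‖1 - ζ n‖ ^ (1 / α - 1) / ‖ζ n - z‖) := by
  have hM := h.Mpos n
  unfold KK
  rw [norm_div, norm_real, Real.norm_eq_abs, abs_of_pos hκ]
  rcases eq_or_ne z (ζ n) with hzn | hzn
  · rw [hzn]
    have : ww (ζ n) (ζ n) = 0 := by
      rw [← norm_eq_zero, ww_norm _ _ (h.norm1 n), sub_self, norm_zero]
    rw [this]
    unfold kk
    rw [mul_zero, Complex.zero_cpow (by exact_mod_cast h.a0.ne'), add_zero, norm_zero, div_zero,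
      sub_self, norm_zero, div_zero, mul_zero]
  · have hd : 0 < ‖ζ n - z‖ := norm_pos_iff.2 (sub_ne_zero.2 hzn.symm)
    have h1 := kk_ge1 α (1 / ‖1 - ζ n‖ ^ (1 / α - 1)) h.a0 h.a1 (by positivity) (ww (ζ n) z)
      (ww_re _ _ (h.norm1 n) hz)
    rw [ww_norm _ _ (h.norm1 n)] at h1
    calc κ / ‖kk α (1 / ‖1 - ζ n‖ ^ (1 / α - 1)) (ww (ζ n) z)‖
        ≤ κ / (1 / ‖1 - ζ n‖ ^ (1 / α - 1) * ‖ζ n - z‖) :=
          div_le_div_of_nonneg_left hκ.le (by positivity) h1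
      _ = κ * (‖1 - ζ n‖ ^ (1 / α - 1) / ‖ζ n - z‖) := by field_simp

theorem rpow_key (h : Data α ζ m1 C) (n : ι) (δ : ℝ) (hδ : 0 < δ)
    (hA : δ ^ α < 1 / ‖1 - ζ n‖ ^ (1 / α - 1) * δ) : ‖1 - ζ n‖ ^ (1 / α) < δ := by
  have hR := h.Rpos n
  have hM := h.Mpos n
  have h1 : 0 < 1 - α := by linarith [h.a1]
  rw [one_div, inv_mul_eq_div, lt_div_iff₀ hM] at hA
  -- δ ^ α * R ^ (1/α - 1) < δ
  have h2 : (‖1 - ζ n‖ ^ (1 / α)) ^ (1 - α) < δ ^ (1 - α) := by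
    rw [← Real.rpow_mul hR.le]
    have e : 1 / α * (1 - α) = 1 / α - 1 := by
      have := h.a0
      field_simp
    rw [e]
    have h3 : δ = δ ^ α * δ ^ (1 - α) := by
      rw [← Real.rpow_add hδ]
      have : α + (1 - α) = 1 := by ring
      rw [this, Real.rpow_one]
    have h4 : 0 < δ ^ α := by positivity
    have h5 : δ ^ α * ‖1 - ζ n‖ ^ (1 / α - 1) < δ ^ α * δ ^ (1 - α) := by
      rw [← h3]
      exact hA
    exact lt_of_mul_lt_mul_left h5 h4.le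
  exact (Real.rpow_lt_rpow_iff (by positivity) hδ.le h1).1 h2

theorem rpow_key' (h : Data α ζ m1 C) (n : ι) (δ : ℝ) (hδ : 0 < δ)
    (hA : δ ^ α < 1 / ‖1 - ζ n‖ ^ (1 / α - 1) * δ) : ‖1 - ζ n‖ < δ ^ α := by
  have h1 := rpow_key h n δ hδ hA
  have hR := h.Rpos n
  have h2 := Real.rpow_lt_rpow (by positivity) h1 h.a0
  rw [← Real.rpow_mul hR.le, one_div, inv_mul_cancel₀ h.a0.ne', Real.rpow_one] at h2
  exact h2

theorem re_X (z : ℂ) (hz : ‖z‖ ≤ 1) (hz1 : z ≠ 1) : 1 / 2 ≤ (1 / (1 - z)).re := by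
  have hne : 1 - z ≠ 0 := sub_ne_zero.2 hz1.symm
  have h1 : 0 < Complex.normSq (1 - z) := Complex.normSq_pos.2 hne
  have e0 : (1 / (1 - z) : ℂ) = (1 - z)⁻¹ := one_div _
  rw [e0, Complex.inv_re, le_div_iff₀ h1]
  have h2 : z.re * z.re + z.im * z.im ≤ 1 := by
    have := Complex.sq_norm z
    rw [Complex.normSq_apply] at this
    rw [← this]
    have := norm_nonneg z
    nlinarith
  rw [Complex.normSq_apply]
  simp only [sub_re, one_re, sub_im, one_im]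
  nlinarith

/-- the near estimate -/
theorem Data.near (h : Data α ζ m1 C) (κ : ℝ) (hκ : 0 < κ) (hκ1 : κ ≤ 1 / 4)
    (hκ2 : κ * m1 ≤ 1 / 4) (n : ι) (z : ℂ) (hz : ‖z‖ ≤ 1) (hz1 : z ≠ 1) (hzn : z ≠ ζ n) :
    Real.cos (α * (Real.pi / 2)) / 8 * (‖1 / (1 - z)‖ + ‖KK α κ ζ n z‖) ≤
      ‖1 / (1 - z) + KK α κ ζ n z‖ := by
  set X := 1 / (1 - z) with hX
  set K := KK α κ ζ n z with hK
  set c := Real.cos (α * (Real.pi / 2)) with hc
  have hc0 : 0 < c := cpos α h.a0 h.a1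
  have hc1 : c ≤ 1 := Real.cos_le_one _
  have hM := h.Mpos n
  set A := 1 / ‖1 - ζ n‖ ^ (1 / α - 1) with hA
  have hA0 : 0 < A := by positivity
  set w := ww (ζ n) z with hw
  have hwn : ‖w‖ = ‖ζ n - z‖ := ww_norm _ _ (h.norm1 n)
  have hwre : 0 ≤ w.re := ww_re _ _ (h.norm1 n) hz
  have hw0 : w ≠ 0 := ww_ne _ _ (h.norm1 n) hzn
  have hwp : 0 < ‖w‖ := norm_pos_iff.2 hw0
  have hk0 : kk α A w ≠ 0 := kk_ne α A h.a0 h.a1 hA0.le w hwre hw0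
  have hkp : 0 < ‖kk α A w‖ := norm_pos_iff.2 hk0
  have hKn : ‖K‖ = κ / ‖kk α A w‖ := by
    rw [hK, KK, norm_div, norm_real, Real.norm_eq_abs, abs_of_pos hκ]
  have hXre : 0 ≤ X.re := by
    have := re_X z hz hz1
    linarith
  have hXK : X.re + K.re ≤ ‖X + K‖ := by
    have := Complex.re_le_norm (X + K)
    rwa [Complex.add_re] at this
  have hρ0 : 0 < ‖1 - z‖ := norm_pos_iff.2 (sub_ne_zero.2 hz1.symm)
  have hXn : ‖X‖ = 1 / ‖1 - z‖ := by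
    rw [hX, norm_div, norm_one]
  rcases le_or_gt (A * ‖w‖) (‖w‖ ^ α) with h1 | h1
  · -- sector case
    have h2 : ‖kk α A w‖ ≤ 2 * ‖w‖ ^ α := by
      have := kk_le α A hA0.le w
      linarith
    have h3 := kk_re α A h.a0 h.a1 hA0.le w hwre
    have h4 : c / 2 * ‖kk α A w‖ ≤ (kk α A w).re := by
      refine le_trans ?_ h3
      have := mul_le_mul_of_nonneg_left h2 (by positivity : 0 ≤ c / 2)
      linarith
    have h5 : c / 2 * ‖K‖ ≤ K.re := by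
      have e : K.re = κ * (kk α A w).re / ‖kk α A w‖ ^ 2 := by
        rw [hK, KK, div_eq_mul_inv, Complex.re_ofReal_mul, Complex.inv_re, ← Complex.sq_norm]
        ring
      rw [e, hKn, le_div_iff₀ (by positivity)]
      have e2 : c / 2 * (κ / ‖kk α A w‖) * ‖kk α A w‖ ^ 2 = κ * (c / 2 * ‖kk α A w‖) := by
        field_simp
      rw [e2]
      exact mul_le_mul_of_nonneg_left h4 hκ.le
    have h6 : c / 2 * ‖K‖ ≤ ‖X + K‖ := by linarith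
    have h7 : ‖X‖ ≤ ‖X + K‖ + ‖K‖ := by
      have := norm_sub_le (X + K) K
      rwa [add_sub_cancel_right] at this
    have h8 : 0 ≤ ‖K‖ := norm_nonneg _
    have h9 : 0 ≤ ‖X + K‖ := norm_nonneg _
    nlinarith
  · -- small case
    have h2 : ‖K‖ ≤ ‖X‖ / 2 := by
      have h3 := kk_ge1 α A h.a0 h.a1 hA0.le w hwre
      have h4 : ‖K‖ ≤ κ * (‖1 - ζ n‖ ^ (1 / α - 1) / ‖ζ n - z‖) := h.KK_le κ hκ n z hz
      rw [hXn]
      rw [← hwn] at h4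
      refine h4.trans ?_
      have hR := h.Rpos n
      rcases le_or_gt ‖1 - z‖ (2 * ‖1 - ζ n‖) with h5 | h5
      · have h6 := rpow_key h n ‖w‖ hwp h1
        have h7 : ‖1 - ζ n‖ ^ (1 / α - 1) / ‖w‖ ≤ 1 / ‖1 - ζ n‖ := by
          rw [div_le_div_iff₀ hwp hR, one_mul]
          calc ‖1 - ζ n‖ ^ (1 / α - 1) * ‖1 - ζ n‖ = ‖1 - ζ n‖ ^ (1 / α) := by
                rw [← Real.rpow_add_one hR.ne']
                congr 1
                ring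
            _ ≤ ‖w‖ := h6.le
        calc κ * (‖1 - ζ n‖ ^ (1 / α - 1) / ‖w‖) ≤ 1 / 4 * (1 / ‖1 - ζ n‖) :=
              mul_le_mul hκ1 h7 (by positivity) (by norm_num)
          _ ≤ 1 / ‖1 - z‖ / 2 := by
              have e1 : 1 / 4 * (1 / ‖1 - ζ n‖) = 1 / (4 * ‖1 - ζ n‖) := by
                field_simp
              have e2 : 1 / ‖1 - z‖ / 2 = 1 / (‖1 - z‖ * 2) := by
                field_simp
              rw [e1, e2]
              apply one_div_le_one_div_of_le (by positivity)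
              linarith
      · have h6 : ‖1 - z‖ / 2 ≤ ‖w‖ := by
          rw [hwn]
          have := norm_add_le (1 - ζ n) (ζ n - z)
          rw [sub_add_sub_cancel] at this
          linarith
        calc κ * (‖1 - ζ n‖ ^ (1 / α - 1) / ‖w‖) = (κ * ‖1 - ζ n‖ ^ (1 / α - 1)) / ‖w‖ := by ring
          _ ≤ (1 / 4) / (‖1 - z‖ / 2) := by
              apply div_le_div₀ (by norm_num) _ (by positivity) h6
              exact (mul_le_mul_of_nonneg_left (h.Mle n) hκ.le).trans hκ2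
          _ = 1 / ‖1 - z‖ / 2 := by
              field_simp
              norm_num
    have h3 : ‖X‖ - ‖K‖ ≤ ‖X + K‖ := by
      have := norm_sub_le (X + K) K
      rw [add_sub_cancel_right] at this
      linarith
    have h8 : 0 ≤ ‖K‖ := norm_nonneg _
    have h9 : 0 ≤ ‖X‖ := norm_nonneg _
    nlinarith

end Pool.Agent.J4H86.PK
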