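import Mathlib
import Pool.Agent.J4H86.PK.Abs

set_option autoImplicit false

open Complex Metric
open scoped Topology

namespace Pool.Agent.J4H86.PK

variable {α : ℝ} {ι : Type} {ζ : ι → ℂ} {m1 C : ℝ}

/-- the exceptional constant -/
noncomputable def cc (α : ℝ) : ℝ := Real.cos (α * (Real.pi / 2)) / 8

theorem cc_pos (α : ℝ) (h0 : 0 < α) (h1 : α < 1) : 0 < cc α := by
  have := cpos α h0 h1
  unfold cc
  positivity

theorem cc_le (α : ℝ) : cc α ≤ 1 / 8 := by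
  have := Real.cos_le_one (α * (Real.pi / 2))
  unfold cc
  linarith

/-- the sums of the summands -/
theorem Data.sums [Nonempty ι] (h : Data α ζ m1 C) (κ : ℝ) (hκ : 0 < κ) (z : ℂ) (hz : ‖z‖ ≤ 1)
    (hz1 : z ≠ 1) : ∃ n0, Summable (fun n => ‖KK α κ ζ n z‖) ∧
      (∀ T : Finset ι, n0 ∉ T → ∑ n ∈ T, ‖KK α κ ζ n z‖ ≤
        κ * (2 * m1 + 4 * C) * (1 / ‖1 - z‖)) := by
  classical
  obtain ⟨n0, hn0⟩ := h.far z hz1
  have hρ0 : 0 < ‖1 - z‖ := norm_pos_iff.2 (sub_ne_zero.2 hz1.symm)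
  have hbound : ∀ T : Finset ι, n0 ∉ T → ∑ n ∈ T, ‖KK α κ ζ n z‖ ≤
      κ * (2 * m1 + 4 * C) * (1 / ‖1 - z‖) := by
    intro T hT
    have h1 : ∀ n ∈ T, ‖KK α κ ζ n z‖ ≤ κ * (1 / ‖1 - z‖) * (2 * ‖1 - ζ n‖ ^ (1 / α - 1) +
        4 * (‖1 - ζ n‖ ^ (1 / α - 1) * ‖1 - ζ n‖ / ‖ζ n - ζ n0‖)) := by
      intro n hn
      have hne : n ≠ n0 := fun e => hT (e ▸ hn)
      refine (h.KK_le κ hκ n z hz).trans ?_
      rw [mul_assoc]
      exact mul_le_mul_of_nonneg_left (hn0 n hne) hκ.le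
    refine (Finset.sum_le_sum h1).trans ?_
    rw [← Finset.mul_sum, Finset.sum_add_distrib, ← Finset.mul_sum, ← Finset.mul_sum]
    have h2 : ∑ n ∈ T, ‖1 - ζ n‖ ^ (1 / α - 1) ≤ m1 :=
      (h.sumM.sum_le_tsum T (fun n _ => (h.Mpos n).le)).trans h.leM
    have h3 : ∑ n ∈ T, ‖1 - ζ n‖ ^ (1 / α - 1) * ‖1 - ζ n‖ / ‖ζ n - ζ n0‖ ≤ C :=
      ((h.sumC n0).sum_le_tsum T (fun n _ => by
        have := h.Mpos n
        positivity)).trans (h.leC n0)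
    have h4 : 2 * ∑ n ∈ T, ‖1 - ζ n‖ ^ (1 / α - 1) +
        4 * ∑ n ∈ T, ‖1 - ζ n‖ ^ (1 / α - 1) * ‖1 - ζ n‖ / ‖ζ n - ζ n0‖ ≤ 2 * m1 + 4 * C := by
      linarith
    have h5 : 0 ≤ κ * (1 / ‖1 - z‖) := by positivity
    have h6 := mul_le_mul_of_nonneg_left h4 h5
    linarith
  refine ⟨n0, ?_, hbound⟩
  apply summable_of_sum_le (c := ‖KK α κ ζ n0 z‖ + κ * (2 * m1 + 4 * C) * (1 / ‖1 - z‖))
  · intro n
    exact norm_nonneg _
  · intro T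
    have h1 : ∑ n ∈ T, ‖KK α κ ζ n z‖ ≤ ∑ n ∈ insert n0 (T.erase n0), ‖KK α κ ζ n z‖ := by
      apply Finset.sum_le_sum_of_subset_of_nonneg
      · intro n hn
        by_cases hne : n = n0
        · rw [hne]
          exact Finset.mem_insert_self _ _
        · exact Finset.mem_insert_of_mem (Finset.mem_erase.2 ⟨hne, hn⟩)
      · intro n _ _
        exact norm_nonneg _
    rw [Finset.sum_insert (Finset.notMem_erase n0 T)] at h1
    have h2 := hbound (T.erase n0) (Finset.notMem_erase n0 T)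
    linarith

/-- the function with the large real part -/
noncomputable def FF (α κ : ℝ) (ζ : ι → ℂ) (z : ℂ) : ℂ := 1 / (1 - z) + ∑' n, KK α κ ζ n z

/-- the lower bound -/
theorem Data.lower [Nonempty ι] (h : Data α ζ m1 C) (κ : ℝ) (hκ : 0 < κ) (hκ1 : κ ≤ 1 / 4)
    (hκ2 : κ * m1 ≤ 1 / 4) (hκ3 : κ * (2 * m1 + 4 * C) ≤ cc α / 2) (z : ℂ) (hz : ‖z‖ ≤ 1)
    (hz1 : z ≠ 1) (hzn : ∀ n, z ≠ ζ n) :
    cc α / 4 * (1 / ‖1 - z‖ + ∑' n, ‖KK α κ ζ n z‖) ≤ ‖FF α κ ζ z‖ := by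
  classical
  obtain ⟨n0, hs, hb⟩ := h.sums κ hκ z hz hz1
  have hc0 := cc_pos α h.a0 h.a1
  have hc1 := cc_le α
  have hρ0 : 0 < ‖1 - z‖ := norm_pos_iff.2 (sub_ne_zero.2 hz1.symm)
  have hnear : cc α * (‖1 / (1 - z)‖ + ‖KK α κ ζ n0 z‖) ≤ ‖1 / (1 - z) + KK α κ ζ n0 z‖ :=
    h.near κ hκ hκ1 hκ2 n0 z hz hz1 (hzn n0)
  have hXn : ‖1 / (1 - z)‖ = 1 / ‖1 - z‖ := by
    rw [norm_div, norm_one]
  rw [hXn] at hnear
  -- the rest
  have hsC : Summable (fun n => KK α κ ζ n z) := hs.of_norm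
  have e1 := hs.tsum_eq_add_tsum_ite n0
  have e2 := hsC.tsum_eq_add_tsum_ite n0
  have hs' : Summable (fun n => if n = n0 then (0 : ℝ) else ‖KK α κ ζ n z‖) := by
    apply Summable.of_nonneg_of_le _ _ hs
    · intro n
      split_ifs
      · exact le_rfl
      · exact norm_nonneg _
    · intro n
      split_ifs
      · exact norm_nonneg _
      · exact le_rfl
  have hrest : ∑' n, (if n = n0 then (0 : ℝ) else ‖KK α κ ζ n z‖) ≤
      κ * (2 * m1 + 4 * C) * (1 / ‖1 - z‖) := by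
    apply hs'.tsum_le_of_sum_le
    intro T
    have h1 : ∑ n ∈ T, (if n = n0 then (0 : ℝ) else ‖KK α κ ζ n z‖) =
        ∑ n ∈ T.erase n0, ‖KK α κ ζ n z‖ := by
      rw [← Finset.sum_erase T (a := n0)]
      · apply Finset.sum_congr rfl
        intro n hn
        rw [if_neg (Finset.ne_of_mem_erase hn)]
      · simp
    rw [h1]
    exact hb _ (Finset.notMem_erase n0 T)
  have hrestC : ‖∑' n, (if n = n0 then (0 : ℂ) else KK α κ ζ n z)‖ ≤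
      ∑' n, (if n = n0 then (0 : ℝ) else ‖KK α κ ζ n z‖) := by
    have e : ∀ n, (if n = n0 then (0 : ℝ) else ‖KK α κ ζ n z‖) =
        ‖(if n = n0 then (0 : ℂ) else KK α κ ζ n z)‖ := by
      intro n
      split_ifs
      · rw [norm_zero]
      · rfl
    rw [tsum_congr e]
    apply norm_tsum_le_tsum_norm
    rw [← summable_congr e]
    exact hs'
  have hF : FF α κ ζ z = (1 / (1 - z) + KK α κ ζ n0 z) +
      ∑' n, (if n = n0 then (0 : ℂ) else KK α κ ζ n z) := by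
    unfold FF
    rw [e2]
    ring
  have hlow : ‖1 / (1 - z) + KK α κ ζ n0 z‖ -
      ‖∑' n, (if n = n0 then (0 : ℂ) else KK α κ ζ n z)‖ ≤ ‖FF α κ ζ z‖ := by
    rw [hF]
    have := norm_sub_le ((1 / (1 - z) + KK α κ ζ n0 z) +
      ∑' n, (if n = n0 then (0 : ℂ) else KK α κ ζ n z))
      (∑' n, (if n = n0 then (0 : ℂ) else KK α κ ζ n z))
    rw [add_sub_cancel_right] at this
    linarith
  have hX0 : 0 < 1 / ‖1 - z‖ := by positivity
  have hK0 : 0 ≤ ‖KK α κ ζ n0 z‖ := norm_nonneg _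
  have h7 : κ * (2 * m1 + 4 * C) * (1 / ‖1 - z‖) ≤ cc α / 2 * (1 / ‖1 - z‖) :=
    mul_le_mul_of_nonneg_right hκ3 hX0.le
  rw [e1]
  set S' := ∑' n, (if n = n0 then (0 : ℝ) else ‖KK α κ ζ n z‖)
  have h8 : cc α / 4 * S' ≤ cc α / 4 * (1 / ‖1 - z‖) := by
    apply mul_le_mul_of_nonneg_left _ (by positivity)
    refine hrest.trans (h7.trans ?_)
    nlinarith
  nlinarith

/-- the real part -/
theorem KK_re (h : Data α ζ m1 C) (κ : ℝ) (hκ : 0 < κ) (n : ι) (z : ℂ) (hz : ‖z‖ ≤ 1)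
    (hzn : z ≠ ζ n) : 0 < (KK α κ ζ n z).re := by
  have hM := h.Mpos n
  have hwre : 0 ≤ (ww (ζ n) z).re := ww_re _ _ (h.norm1 n) hz
  have hw0 : ww (ζ n) z ≠ 0 := ww_ne _ _ (h.norm1 n) hzn
  have hk0 : kk α (1 / ‖1 - ζ n‖ ^ (1 / α - 1)) (ww (ζ n) z) ≠ 0 :=
    kk_ne α _ h.a0 h.a1 (by positivity) _ hwre hw0
  have h3 := kk_re α (1 / ‖1 - ζ n‖ ^ (1 / α - 1)) h.a0 h.a1 (by positivity) _ hwre
  have h4 : 0 < (kk α (1 / ‖1 - ζ n‖ ^ (1 / α - 1)) (ww (ζ n) z)).re := by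
    refine lt_of_lt_of_le ?_ h3
    have h5 := cpos α h.a0 h.a1
    have h6 : 0 < ‖ww (ζ n) z‖ := norm_pos_iff.2 hw0
    positivity
  unfold KK
  rw [div_eq_mul_inv, Complex.re_ofReal_mul, Complex.inv_re]
  have h5 := Complex.normSq_pos.2 hk0
  positivity

theorem Data.FF_re [Nonempty ι] (h : Data α ζ m1 C) (κ : ℝ) (hκ : 0 < κ) (z : ℂ) (hz : ‖z‖ ≤ 1)
    (hz1 : z ≠ 1) (hzn : ∀ n, z ≠ ζ n) : 1 / 2 < (FF α κ ζ z).re := by
  obtain ⟨n0, hs, hb⟩ := h.sums κ hκ z hz hz1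
  have hsC : Summable (fun n => KK α κ ζ n z) := hs.of_norm
  have hsr : Summable (fun n => (KK α κ ζ n z).re) := by
    have := Complex.reCLM.summable hsC
    exact this
  unfold FF
  rw [Complex.add_re, Complex.re_tsum hsC]
  have h1 := re_X z hz hz1
  have h2 : 0 < ∑' n, (KK α κ ζ n z).re :=
    hsr.tsum_pos (fun n => (KK_re h κ hκ n z hz (hzn n)).le) n0 (KK_re h κ hκ n0 z hz (hzn n0))
  linarith

/-- termwise differences -/
theorem Data.diff (h : Data α ζ m1 C) (κ : ℝ) (hκ : 0 < κ) (n : ι) (z z' : ℂ) (hz : ‖z‖ ≤ 1)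
    (hz' : ‖z'‖ ≤ 1) (hzn : z ≠ ζ n) (hzn' : z' ≠ ζ n) (hne : z ≠ z')
    (hρ : 2 * ‖z - z'‖ ^ α < ‖1 - z‖) (hρ' : 2 * ‖z - z'‖ ^ α < ‖1 - z'‖) :
    ‖KK α κ ζ n z - KK α κ ζ n z'‖ ≤
      5 / κ * ‖z - z'‖ ^ α * (‖KK α κ ζ n z‖ * ‖KK α κ ζ n z'‖) +
      4 * κ * ‖z - z'‖ * (1 / ‖1 - z‖ * (1 / ‖1 - z'‖)) * ‖1 - ζ n‖ ^ (1 / α - 1) := by
  set δ := ‖z - z'‖ with hδ
  have hδ0 : 0 < δ := norm_pos_iff.2 (sub_ne_zero.2 hne)
  have hM := h.Mpos n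
  have hR := h.Rpos n
  set M := ‖1 - ζ n‖ ^ (1 / α - 1) with hMdef
  have hwre : 0 ≤ (ww (ζ n) z).re := ww_re _ _ (h.norm1 n) hz
  have hwre' : 0 ≤ (ww (ζ n) z').re := ww_re _ _ (h.norm1 n) hz'
  have hw0 : ww (ζ n) z ≠ 0 := ww_ne _ _ (h.norm1 n) hzn
  have hw0' : ww (ζ n) z' ≠ 0 := ww_ne _ _ (h.norm1 n) hzn'
  have hk0 : kk α (1 / M) (ww (ζ n) z) ≠ 0 := kk_ne α _ h.a0 h.a1 (by positivity) _ hwre hw0
  have hk0' : kk α (1 / M) (ww (ζ n) z') ≠ 0 := kk_ne α _ h.a0 h.a1 (by positivity) _ hwre' hw0'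
  have hkp : 0 < ‖kk α (1 / M) (ww (ζ n) z)‖ := norm_pos_iff.2 hk0
  have hkp' : 0 < ‖kk α (1 / M) (ww (ζ n) z')‖ := norm_pos_iff.2 hk0'
  have hKn : ‖KK α κ ζ n z‖ = κ / ‖kk α (1 / M) (ww (ζ n) z)‖ := by
    rw [KK, norm_div, norm_real, Real.norm_eq_abs, abs_of_pos hκ]
  have hKn' : ‖KK α κ ζ n z'‖ = κ / ‖kk α (1 / M) (ww (ζ n) z')‖ := by
    rw [KK, norm_div, norm_real, Real.norm_eq_abs, abs_of_pos hκ]
  have hκC : (κ : ℂ) ≠ 0 := by exact_mod_cast hκ.ne'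
  have e : KK α κ ζ n z - KK α κ ζ n z' = (1 / (κ : ℂ)) * (KK α κ ζ n z * KK α κ ζ n z') *
      (kk α (1 / M) (ww (ζ n) z') - kk α (1 / M) (ww (ζ n) z)) := by
    unfold KK
    rw [← hMdef]
    field_simp
  have h1 := kk_holder α (1 / M) h.a0 h.a1 (by positivity) (ww (ζ n) z') (ww (ζ n) z) hwre' hwre
  rw [ww_sub _ _ _ (h.norm1 n), norm_sub_rev z', ← hδ] at h1
  have h2 : ‖KK α κ ζ n z - KK α κ ζ n z'‖ ≤
      1 / κ * (‖KK α κ ζ n z‖ * ‖KK α κ ζ n z'‖) * (1 / M * δ + 4 * δ ^ α) := by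
    rw [e, norm_mul, norm_mul, norm_mul, norm_div, norm_one, norm_real, Real.norm_eq_abs,
      abs_of_pos hκ]
    exact mul_le_mul_of_nonneg_left h1 (by positivity)
  have hδα : 0 < δ ^ α := by positivity
  have hρ0 : 0 < ‖1 - z‖ := by linarith
  have hρ0' : 0 < ‖1 - z'‖ := by linarith
  have hKK0 : 0 ≤ ‖KK α κ ζ n z‖ * ‖KK α κ ζ n z'‖ := by positivity
  refine h2.trans ?_
  rcases le_or_gt (1 / M * δ) (δ ^ α) with h3 | h3
  · have h4 : 1 / κ * (‖KK α κ ζ n z‖ * ‖KK α κ ζ n z'‖) * (1 / M * δ + 4 * δ ^ α) ≤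
        1 / κ * (‖KK α κ ζ n z‖ * ‖KK α κ ζ n z'‖) * (5 * δ ^ α) :=
      mul_le_mul_of_nonneg_left (by linarith) (by positivity)
    refine h4.trans ?_
    have h5 : 0 ≤ 4 * κ * δ * (1 / ‖1 - z‖ * (1 / ‖1 - z'‖)) * M := by positivity
    have e5 : 1 / κ * (‖KK α κ ζ n z‖ * ‖KK α κ ζ n z'‖) * (5 * δ ^ α) =
        5 / κ * δ ^ α * (‖KK α κ ζ n z‖ * ‖KK α κ ζ n z'‖) := by
      ring
    rw [e5]
    linarith
  · have h4 := rpow_key' h n δ hδ0 h3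
    have h5 : ‖1 - z‖ / 2 ≤ ‖ζ n - z‖ := by
      have := norm_add_le (1 - ζ n) (ζ n - z)
      rw [sub_add_sub_cancel] at this
      linarith
    have h5' : ‖1 - z'‖ / 2 ≤ ‖ζ n - z'‖ := by
      have := norm_add_le (1 - ζ n) (ζ n - z')
      rw [sub_add_sub_cancel] at this
      linarith
    have h6 : ‖KK α κ ζ n z‖ ≤ 2 * κ * M * (1 / ‖1 - z‖) := by
      refine (h.KK_le κ hκ n z hz).trans ?_
      have : M / ‖ζ n - z‖ ≤ M / (‖1 - z‖ / 2) :=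
        div_le_div_of_nonneg_left hM.le (by positivity) h5
      calc κ * (M / ‖ζ n - z‖) ≤ κ * (M / (‖1 - z‖ / 2)) := mul_le_mul_of_nonneg_left this hκ.le
        _ = 2 * κ * M * (1 / ‖1 - z‖) := by field_simp
    have h6' : ‖KK α κ ζ n z'‖ ≤ 2 * κ * M * (1 / ‖1 - z'‖) := by
      refine (h.KK_le κ hκ n z' hz').trans ?_
      have : M / ‖ζ n - z'‖ ≤ M / (‖1 - z'‖ / 2) :=
        div_le_div_of_nonneg_left hM.le (by positivity) h5'
      calc κ * (M / ‖ζ n - z'‖) ≤ κ * (M / (‖1 - z'‖ / 2)) := mul_le_mul_of_nonneg_left this hκ.le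
        _ = 2 * κ * M * (1 / ‖1 - z'‖) := by field_simp
    have h7 : 1 / κ * (‖KK α κ ζ n z‖ * ‖KK α κ ζ n z'‖) * (1 / M * δ) ≤
        1 / κ * ((2 * κ * M * (1 / ‖1 - z‖)) * (2 * κ * M * (1 / ‖1 - z'‖))) * (1 / M * δ) := by
      apply mul_le_mul_of_nonneg_right _ (by positivity)
      apply mul_le_mul_of_nonneg_left _ (by positivity)
      exact mul_le_mul h6 h6' (norm_nonneg _) (by positivity)
    have e7 : 1 / κ * ((2 * κ * M * (1 / ‖1 - z‖)) * (2 * κ * M * (1 / ‖1 - z'‖))) * (1 / M * δ) =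
        4 * κ * δ * (1 / ‖1 - z‖ * (1 / ‖1 - z'‖)) * M := by
      field_simp
      ring
    rw [e7] at h7
    have h8 : 1 / κ * (‖KK α κ ζ n z‖ * ‖KK α κ ζ n z'‖) * (4 * δ ^ α) ≤
        5 / κ * δ ^ α * (‖KK α κ ζ n z‖ * ‖KK α κ ζ n z'‖) := by
      have e8 : 1 / κ * (‖KK α κ ζ n z‖ * ‖KK α κ ζ n z'‖) * (4 * δ ^ α) =
        4 * (1 / κ * δ ^ α * (‖KK α κ ζ n z‖ * ‖KK α κ ζ n z'‖)) := by ring
      have e9 : 5 / κ * δ ^ α * (‖KK α κ ζ n z‖ * ‖KK α κ ζ n z'‖) =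
        5 * (1 / κ * δ ^ α * (‖KK α κ ζ n z‖ * ‖KK α κ ζ n z'‖)) := by ring
      rw [e8, e9]
      have : 0 ≤ 1 / κ * δ ^ α * (‖KK α κ ζ n z‖ * ‖KK α κ ζ n z'‖) := by positivity
      linarith
    rw [mul_add]
    linarith

theorem tsum_mul_le (a b : ι → ℝ) (ha : ∀ n, 0 ≤ a n) (hb : ∀ n, 0 ≤ b n) (sa : Summable a)
    (sb : Summable b) : Summable (fun n => a n * b n) ∧
      ∑' n, a n * b n ≤ (∑' n, a n) * ∑' n, b n := by
  have hbound : ∀ n, a n * b n ≤ (∑' n, a n) * b n := by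
    intro n
    exact mul_le_mul_of_nonneg_right (sa.le_tsum n (fun m _ => ha m)) (hb n)
  have s1 : Summable (fun n => (∑' n, a n) * b n) := sb.mul_left _
  have s2 : Summable (fun n => a n * b n) :=
    Summable.of_nonneg_of_le (fun n => mul_nonneg (ha n) (hb n)) hbound s1
  refine ⟨s2, ?_⟩
  rw [← tsum_mul_left]
  exact s2.tsum_le_tsum hbound s1

/-- the constant in the Hölder estimate -/
noncomputable def c5 (α κ : ℝ) : ℝ := (5 / κ + 4) * (4 / cc α) ^ 2 + 32 / cc α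

/-- the difference of two values -/
theorem Data.FF_diff [Nonempty ι] (h : Data α ζ m1 C) (κ : ℝ) (hκ : 0 < κ) (hκ1 : κ ≤ 1 / 4)
    (hκ2 : κ * m1 ≤ 1 / 4) (hκ3 : κ * (2 * m1 + 4 * C) ≤ cc α / 2) (z z' : ℂ) (hz : ‖z‖ ≤ 1)
    (hz' : ‖z'‖ ≤ 1) (hz1 : z ≠ 1) (hz1' : z' ≠ 1) (hzn : ∀ n, z ≠ ζ n) (hzn' : ∀ n, z' ≠ ζ n) :
    ‖FF α κ ζ z - FF α κ ζ z'‖ ≤ c5 α κ * ‖z - z'‖ ^ α * (‖FF α κ ζ z‖ * ‖FF α κ ζ z'‖) := by
  have hc0 := cc_pos α h.a0 h.a1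
  have hc1 := cc_le α
  rcases eq_or_ne z z' with hne | hne
  · rw [hne, sub_self, sub_self, norm_zero]
    have : (0 : ℝ) ^ α = 0 := Real.zero_rpow h.a0.ne'
    rw [this]
    simp
  have hl := h.lower κ hκ hκ1 hκ2 hκ3 z hz hz1 hzn
  have hl' := h.lower κ hκ hκ1 hκ2 hκ3 z' hz' hz1' hzn'
  obtain ⟨_, hs, _⟩ := h.sums κ hκ z hz hz1
  obtain ⟨_, hs', _⟩ := h.sums κ hκ z' hz' hz1'
  set δ := ‖z - z'‖ with hδ
  have hδ0 : 0 < δ := norm_pos_iff.2 (sub_ne_zero.2 hne)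
  have hδ2 : δ ≤ 2 := by
    have := norm_sub_le z z'
    linarith
  have hδα : 0 < δ ^ α := by positivity
  have hδδ : δ ≤ 2 * δ ^ α := by
    have e : δ = δ ^ (1 - α) * δ ^ α := by
      rw [← Real.rpow_add hδ0]
      have : 1 - α + α = 1 := by ring
      rw [this, Real.rpow_one]
    have h1 : δ ^ (1 - α) ≤ 2 := by
      have ha := h.a1
      have ha0 := h.a0
      calc δ ^ (1 - α) ≤ 2 ^ (1 - α) := Real.rpow_le_rpow hδ0.le hδ2 (by linarith)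
        _ ≤ 2 ^ (1 : ℝ) := Real.rpow_le_rpow_of_exponent_le (by norm_num) (by linarith)
        _ = 2 := Real.rpow_one 2
    calc δ = δ ^ (1 - α) * δ ^ α := e
      _ ≤ 2 * δ ^ α := mul_le_mul_of_nonneg_right h1 hδα.le
  have hρ0 : 0 < ‖1 - z‖ := norm_pos_iff.2 (sub_ne_zero.2 hz1.symm)
  have hρ0' : 0 < ‖1 - z'‖ := norm_pos_iff.2 (sub_ne_zero.2 hz1'.symm)
  have hX0 : 0 < 1 / ‖1 - z‖ := by positivity
  have hX0' : 0 < 1 / ‖1 - z'‖ := by positivity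
  set S := ∑' n, ‖KK α κ ζ n z‖ with hS
  set S' := ∑' n, ‖KK α κ ζ n z'‖ with hS'
  have hS0 : 0 ≤ S := tsum_nonneg (fun n => norm_nonneg _)
  have hS0' : 0 ≤ S' := tsum_nonneg (fun n => norm_nonneg _)
  have hF0 : 0 ≤ ‖FF α κ ζ z‖ := norm_nonneg _
  have hF0' : 0 ≤ ‖FF α κ ζ z'‖ := norm_nonneg _
  by_cases hcase : 2 * δ ^ α < ‖1 - z‖ ∧ 2 * δ ^ α < ‖1 - z'‖
  · obtain ⟨hρ, hρ'⟩ := hcase
    have hsC : Summable (fun n => KK α κ ζ n z) := hs.of_norm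
    have hsC' : Summable (fun n => KK α κ ζ n z') := hs'.of_norm
    obtain ⟨sab, hab⟩ := tsum_mul_le (fun n => ‖KK α κ ζ n z‖) (fun n => ‖KK α κ ζ n z'‖)
      (fun n => norm_nonneg _) (fun n => norm_nonneg _) hs hs'
    have hterm := fun n => h.diff κ hκ n z z' hz hz' (hzn n) (hzn' n) hne hρ hρ'
    have sA : Summable (fun n => 5 / κ * δ ^ α * (‖KK α κ ζ n z‖ * ‖KK α κ ζ n z'‖)) :=
      sab.mul_left _
    have sB : Summable (fun n => 4 * κ * δ * (1 / ‖1 - z‖ * (1 / ‖1 - z'‖)) *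
        ‖1 - ζ n‖ ^ (1 / α - 1)) := h.sumM.mul_left _
    have sD : Summable (fun n => ‖KK α κ ζ n z - KK α κ ζ n z'‖) :=
      Summable.of_nonneg_of_le (fun n => norm_nonneg _) hterm (sA.add sB)
    have h1 : ‖∑' n, (KK α κ ζ n z - KK α κ ζ n z')‖ ≤
        5 / κ * δ ^ α * (S * S') + 4 * κ * δ * (1 / ‖1 - z‖ * (1 / ‖1 - z'‖)) * m1 := by
      refine (norm_tsum_le_tsum_norm sD).trans ?_
      refine (sD.tsum_le_tsum hterm (sA.add sB)).trans ?_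
      rw [sA.tsum_add sB, tsum_mul_left, tsum_mul_left]
      apply add_le_add
      · exact mul_le_mul_of_nonneg_left hab (by positivity)
      · exact mul_le_mul_of_nonneg_left h.leM (by positivity)
    have e1 : FF α κ ζ z - FF α κ ζ z' = (1 / (1 - z) - 1 / (1 - z')) +
        ∑' n, (KK α κ ζ n z - KK α κ ζ n z') := by
      unfold FF
      rw [hsC.tsum_sub hsC']
      ring
    have e2 : ‖1 / (1 - z) - 1 / (1 - z')‖ = δ * (1 / ‖1 - z‖ * (1 / ‖1 - z'‖)) := by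
      have hne1 : 1 - z ≠ 0 := sub_ne_zero.2 hz1.symm
      have hne1' : 1 - z' ≠ 0 := sub_ne_zero.2 hz1'.symm
      have e3 : 1 / (1 - z) - 1 / (1 - z') = (z - z') * (1 / (1 - z) * (1 / (1 - z'))) := by
        field_simp
        ring
      rw [e3, norm_mul, norm_mul, norm_div, norm_div, norm_one]
    have h2 : ‖FF α κ ζ z - FF α κ ζ z'‖ ≤ δ * (1 / ‖1 - z‖ * (1 / ‖1 - z'‖)) +
        (5 / κ * δ ^ α * (S * S') + 4 * κ * δ * (1 / ‖1 - z‖ * (1 / ‖1 - z'‖)) * m1) := by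
      rw [e1]
      refine (norm_add_le _ _).trans ?_
      rw [e2]
      linarith
    have h3 : δ * (1 / ‖1 - z‖ * (1 / ‖1 - z'‖)) +
        (5 / κ * δ ^ α * (S * S') + 4 * κ * δ * (1 / ‖1 - z‖ * (1 / ‖1 - z'‖)) * m1) ≤
        (5 / κ + 4) * δ ^ α * ((1 / ‖1 - z‖ + S) * (1 / ‖1 - z'‖ + S')) := by
      set X := 1 / ‖1 - z‖ with hX
      set X' := 1 / ‖1 - z'‖ with hX'
      have hXX : 0 ≤ X * X' := by positivity
      have h4 : δ * (X * X') + 4 * κ * δ * (X * X') * m1 ≤ 4 * δ ^ α * (X * X') := by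
        have h5 : 4 * κ * δ * (X * X') * m1 = 4 * (κ * m1) * (δ * (X * X')) := by ring
        rw [h5]
        have h6 : 4 * (κ * m1) * (δ * (X * X')) ≤ 1 * (δ * (X * X')) :=
          mul_le_mul_of_nonneg_right (by linarith) (by positivity)
        have h7 : δ * (X * X') ≤ 2 * δ ^ α * (X * X') := mul_le_mul_of_nonneg_right hδδ hXX
        linarith
      have h5 : S * S' ≤ (X + S) * (X' + S') :=
        mul_le_mul (by linarith) (by linarith) hS0' (by linarith)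
      have h6 : X * X' ≤ (X + S) * (X' + S') :=
        mul_le_mul (by linarith) (by linarith) hX0'.le (by linarith)
      have h7 : 5 / κ * δ ^ α * (S * S') ≤ 5 / κ * δ ^ α * ((X + S) * (X' + S')) :=
        mul_le_mul_of_nonneg_left h5 (by positivity)
      have h8 : 4 * δ ^ α * (X * X') ≤ 4 * δ ^ α * ((X + S) * (X' + S')) :=
        mul_le_mul_of_nonneg_left h6 (by positivity)
      have e8 : (5 / κ + 4) * δ ^ α * ((X + S) * (X' + S')) =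
        5 / κ * δ ^ α * ((X + S) * (X' + S')) + 4 * δ ^ α * ((X + S) * (X' + S')) := by ring
      rw [e8]
      linarith
    have h4 : 1 / ‖1 - z‖ + S ≤ 4 / cc α * ‖FF α κ ζ z‖ := by
      have := mul_le_mul_of_nonneg_left hl (by positivity : 0 ≤ 4 / cc α)
      have e : 4 / cc α * (cc α / 4 * (1 / ‖1 - z‖ + S)) = 1 / ‖1 - z‖ + S := by
        field_simp
      rwa [e] at this
    have h4' : 1 / ‖1 - z'‖ + S' ≤ 4 / cc α * ‖FF α κ ζ z'‖ := by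
      have := mul_le_mul_of_nonneg_left hl' (by positivity : 0 ≤ 4 / cc α)
      have e : 4 / cc α * (cc α / 4 * (1 / ‖1 - z'‖ + S')) = 1 / ‖1 - z'‖ + S' := by
        field_simp
      rwa [e] at this
    have h5 : (1 / ‖1 - z‖ + S) * (1 / ‖1 - z'‖ + S') ≤
        (4 / cc α * ‖FF α κ ζ z‖) * (4 / cc α * ‖FF α κ ζ z'‖) :=
      mul_le_mul h4 h4' (by positivity) (by positivity)
    refine h2.trans (h3.trans ?_)
    calc (5 / κ + 4) * δ ^ α * ((1 / ‖1 - z‖ + S) * (1 / ‖1 - z'‖ + S'))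
        ≤ (5 / κ + 4) * δ ^ α * ((4 / cc α * ‖FF α κ ζ z‖) * (4 / cc α * ‖FF α κ ζ z'‖)) :=
          mul_le_mul_of_nonneg_left h5 (by positivity)
      _ = (5 / κ + 4) * (4 / cc α) ^ 2 * δ ^ α * (‖FF α κ ζ z‖ * ‖FF α κ ζ z'‖) := by ring
      _ ≤ c5 α κ * δ ^ α * (‖FF α κ ζ z‖ * ‖FF α κ ζ z'‖) := by
          apply mul_le_mul_of_nonneg_right _ (by positivity)
          apply mul_le_mul_of_nonneg_right _ hδα.le
          unfold c5
          have : 0 < 32 / cc α := by positivity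
          linarith
  · -- both close to one
    have htri : ‖1 - z‖ ≤ ‖1 - z'‖ + δ := by
      have := norm_add_le (1 - z') (z' - z)
      rw [sub_add_sub_cancel, norm_sub_rev z'] at this
      exact this
    have htri' : ‖1 - z'‖ ≤ ‖1 - z‖ + δ := by
      have := norm_add_le (1 - z) (z - z')
      rw [sub_add_sub_cancel] at this
      exact this
    have hboth : ‖1 - z‖ ≤ 4 * δ ^ α ∧ ‖1 - z'‖ ≤ 4 * δ ^ α := by
      rw [not_and_or, not_lt, not_lt] at hcase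
      rcases hcase with h1 | h1
      · constructor <;> linarith
      · constructor <;> linarith
    have hone : ∀ x : ℂ, 0 < ‖1 - x‖ → ‖1 - x‖ ≤ 4 * δ ^ α → ∀ T : ℝ, 0 ≤ T →
        cc α / 4 * (1 / ‖1 - x‖ + T) ≤ ‖FF α κ ζ x‖ → 1 ≤ 16 / cc α * δ ^ α * ‖FF α κ ζ x‖ := by
      intro x hx hx4 T hT hlx
      have h1 : cc α / 4 * (1 / ‖1 - x‖) ≤ ‖FF α κ ζ x‖ := by
        refine le_trans ?_ hlx
        apply mul_le_mul_of_nonneg_left _ (by positivity)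
        linarith
      have h2 : 1 / (4 * δ ^ α) ≤ 1 / ‖1 - x‖ := one_div_le_one_div_of_le hx hx4
      have h3 : cc α / 4 * (1 / (4 * δ ^ α)) ≤ ‖FF α κ ζ x‖ :=
        (mul_le_mul_of_nonneg_left h2 (by positivity)).trans h1
      have h4 := mul_le_mul_of_nonneg_left h3 (by positivity : 0 ≤ 16 / cc α * δ ^ α)
      have e : 16 / cc α * δ ^ α * (cc α / 4 * (1 / (4 * δ ^ α))) = 1 := by
        field_simp
        norm_num
      rwa [e] at h4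
    have h1 := hone z hρ0 hboth.1 S hS0 hl
    have h1' := hone z' hρ0' hboth.2 S' hS0' hl'
    have h2 : ‖FF α κ ζ z‖ ≤ 16 / cc α * δ ^ α * (‖FF α κ ζ z‖ * ‖FF α κ ζ z'‖) := by
      have := mul_le_mul_of_nonneg_left h1' hF0
      nlinarith
    have h2' : ‖FF α κ ζ z'‖ ≤ 16 / cc α * δ ^ α * (‖FF α κ ζ z‖ * ‖FF α κ ζ z'‖) := by
      have := mul_le_mul_of_nonneg_left h1 hF0'
      nlinarith
    have h3 := norm_sub_le (FF α κ ζ z) (FF α κ ζ z')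
    have h4 : ‖FF α κ ζ z - FF α κ ζ z'‖ ≤
        32 / cc α * δ ^ α * (‖FF α κ ζ z‖ * ‖FF α κ ζ z'‖) := by
      have e : 32 / cc α * δ ^ α * (‖FF α κ ζ z‖ * ‖FF α κ ζ z'‖) =
        2 * (16 / cc α * δ ^ α * (‖FF α κ ζ z‖ * ‖FF α κ ζ z'‖)) := by ring
      rw [e]
      linarith
    refine h4.trans ?_
    apply mul_le_mul_of_nonneg_right _ (by positivity)
    apply mul_le_mul_of_nonneg_right _ hδα.le
    unfold c5
    have : 0 ≤ (5 / κ + 4) * (4 / cc α) ^ 2 := by positivity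
    linarith

end Pool.Agent.J4H86.PK
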