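import Mathlib
import Pool.Agent.J4H86.PK.Sum

set_option autoImplicit false

open Complex Metric
open scoped Topology

namespace Pool.Agent.J4H86.PK

variable {α : ℝ} {ι : Type} {ζ : ι → ℂ} {m1 C : ℝ}

theorem Data.C_nonneg [Nonempty ι] (h : Data α ζ m1 C) : 0 ≤ C := by
  obtain ⟨n0⟩ := (inferInstance : Nonempty ι)
  refine le_trans (tsum_nonneg (fun n => ?_)) (h.leC n0)
  have := h.Mpos n
  positivity

theorem rpow_self_le (h : Data α ζ m1 C) (δ : ℝ) (hδ0 : 0 < δ) (hδ2 : δ ≤ 2) :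
    δ ≤ 2 * δ ^ α := by
  have hδα : 0 < δ ^ α := by positivity
  have e : δ = δ ^ (1 - α) * δ ^ α := by
    rw [← Real.rpow_add hδ0]
    have : 1 - α + α = 1 := by ring
    rw [this, Real.rpow_one]
  have h1 : δ ^ (1 - α) ≤ 2 := by
    have ha := h.a1
    have ha0 := h.a0
    calc δ ^ (1 - α) ≤ 2 ^ (1 - α) := Real.rpow_le_rpow hδ0.le hδ2 (by linarith)
      _ ≤ 2 ^ (1 : ℝ) := Real.rpow_le_rpow_of_exponent_le (by norm_num) (by linarith)
      _ = 2 := Real.rpow_one 2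
  calc δ = δ ^ (1 - α) * δ ^ α := e
    _ ≤ 2 * δ ^ α := mul_le_mul_of_nonneg_right h1 hδα.le

/-- the constant at the points of the set -/
noncomputable def c6 (α κ : ℝ) : ℝ := 12 / cc α + 8 / (cc α * κ)

theorem Data.inv_le [Nonempty ι] (h : Data α ζ m1 C) (κ : ℝ) (hκ : 0 < κ) (hκ1 : κ ≤ 1 / 4)
    (hκ2 : κ * m1 ≤ 1 / 4) (hκ3 : κ * (2 * m1 + 4 * C) ≤ cc α / 2) (z z' : ℂ) (hz : ‖z‖ ≤ 1)
    (hz1 : z ≠ 1) (hzn : ∀ n, z ≠ ζ n) (hz' : z' = 1 ∨ z' ∈ Set.range ζ) :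
    ‖(FF α κ ζ z)⁻¹‖ ≤ c6 α κ * ‖z - z'‖ ^ α := by
  have hc0 := cc_pos α h.a0 h.a1
  have hc1 := cc_le α
  have hl := h.lower κ hκ hκ1 hκ2 hκ3 z hz hz1 hzn
  obtain ⟨_, hs, _⟩ := h.sums κ hκ z hz hz1
  have hne : z ≠ z' := by
    rcases hz' with rfl | ⟨n, rfl⟩
    · exact hz1
    · exact hzn n
  have hz'n : ‖z'‖ ≤ 1 := by
    rcases hz' with rfl | ⟨n, rfl⟩
    · simp
    · exact (h.norm1 n).le
  set δ := ‖z - z'‖ with hδ
  have hδ0 : 0 < δ := norm_pos_iff.2 (sub_ne_zero.2 hne)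
  have hδ2 : δ ≤ 2 := by
    have := norm_sub_le z z'
    linarith
  have hδα : 0 < δ ^ α := by positivity
  have hδδ := rpow_self_le h δ hδ0 hδ2
  have hρ0 : 0 < ‖1 - z‖ := norm_pos_iff.2 (sub_ne_zero.2 hz1.symm)
  set S := ∑' n, ‖KK α κ ζ n z‖ with hS
  have hS0 : 0 ≤ S := tsum_nonneg (fun n => norm_nonneg _)
  have hX0 : 0 < 1 / ‖1 - z‖ := by positivity
  have hF0 : 0 < ‖FF α κ ζ z‖ := by
    refine lt_of_lt_of_le ?_ hl
    positivity
  rw [norm_inv, inv_le_iff_one_le_mul₀ hF0]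
  have hcc : 0 < cc α * κ := by positivity
  -- two ways
  have way1 : ‖1 - z‖ ≤ 3 * δ ^ α → 1 ≤ c6 α κ * δ ^ α * ‖FF α κ ζ z‖ := by
    intro h1
    have h2 : 1 / (3 * δ ^ α) ≤ 1 / ‖1 - z‖ := one_div_le_one_div_of_le hρ0 h1
    have h3 : cc α / 4 * (1 / (3 * δ ^ α)) ≤ ‖FF α κ ζ z‖ := by
      refine le_trans ?_ hl
      apply mul_le_mul_of_nonneg_left _ (by positivity)
      linarith
    have h4 := mul_le_mul_of_nonneg_left h3 (by positivity : 0 ≤ 12 / cc α * δ ^ α)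
    have e : 12 / cc α * δ ^ α * (cc α / 4 * (1 / (3 * δ ^ α))) = 1 := by
      field_simp
      norm_num
    rw [e] at h4
    refine h4.trans ?_
    apply mul_le_mul_of_nonneg_right _ hF0.le
    apply mul_le_mul_of_nonneg_right _ hδα.le
    unfold c6
    have : 0 < 8 / (cc α * κ) := by positivity
    linarith
  have way2 : κ / (2 * δ ^ α) ≤ S → 1 ≤ c6 α κ * δ ^ α * ‖FF α κ ζ z‖ := by
    intro h1
    have h3 : cc α / 4 * (κ / (2 * δ ^ α)) ≤ ‖FF α κ ζ z‖ := by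
      refine le_trans ?_ hl
      apply mul_le_mul_of_nonneg_left _ (by positivity)
      linarith
    have h4 := mul_le_mul_of_nonneg_left h3 (by positivity : 0 ≤ 8 / (cc α * κ) * δ ^ α)
    have e : 8 / (cc α * κ) * δ ^ α * (cc α / 4 * (κ / (2 * δ ^ α))) = 1 := by
      field_simp
      norm_num
    rw [e] at h4
    refine h4.trans ?_
    apply mul_le_mul_of_nonneg_right _ hF0.le
    apply mul_le_mul_of_nonneg_right _ hδα.le
    unfold c6
    have : 0 < 12 / cc α := by positivity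
    linarith
  rcases hz' with h1 | ⟨m, h1⟩
  · apply way1
    have e : ‖1 - z‖ = δ := by
      rw [hδ, h1, norm_sub_rev]
    rw [e]
    linarith
  · have hM := h.Mpos m
    have hR := h.Rpos m
    have hwn : ‖ww (ζ m) z‖ = δ := by
      rw [ww_norm _ _ (h.norm1 m), hδ, ← h1, norm_sub_rev]
    rcases le_or_gt (1 / ‖1 - ζ m‖ ^ (1 / α - 1) * δ) (δ ^ α) with h3 | h3
    · apply way2
      have h4 : ‖KK α κ ζ m z‖ ≤ S := hs.le_tsum m (fun n _ => norm_nonneg _)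
      refine le_trans ?_ h4
      have hwre : 0 ≤ (ww (ζ m) z).re := ww_re _ _ (h.norm1 m) hz
      have hw0 : ww (ζ m) z ≠ 0 := ww_ne _ _ (h.norm1 m) (hzn m)
      have hk0 : kk α (1 / ‖1 - ζ m‖ ^ (1 / α - 1)) (ww (ζ m) z) ≠ 0 :=
        kk_ne α _ h.a0 h.a1 (by positivity) _ hwre hw0
      have hkp := norm_pos_iff.2 hk0
      have h5 := kk_le α (1 / ‖1 - ζ m‖ ^ (1 / α - 1)) (by positivity) (ww (ζ m) z)
      rw [hwn] at h5
      rw [KK, norm_div, norm_real, Real.norm_eq_abs, abs_of_pos hκ]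
      apply div_le_div_of_nonneg_left hκ.le hkp
      linarith
    · apply way1
      have h4 := rpow_key' h m δ hδ0 h3
      have h5 := norm_add_le (1 - ζ m) (ζ m - z)
      rw [sub_add_sub_cancel] at h5
      have h6 : ‖ζ m - z‖ = δ := by
        rw [hδ, ← h1, norm_sub_rev]
      rw [h6] at h5
      linarith

theorem KK_differentiableAt (h : Data α ζ m1 C) (κ : ℝ) (n : ι) (z : ℂ) (hz : ‖z‖ < 1) :
    DifferentiableAt ℂ (KK α κ ζ n) z := by
  have hM := h.Mpos n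
  have hwre : 0 < (ww (ζ n) z).re := by
    unfold ww
    have h1 : (z * (starRingEnd ℂ) (ζ n)).re ≤ ‖z * (starRingEnd ℂ) (ζ n)‖ := Complex.re_le_norm _
    rw [norm_mul, Complex.norm_conj, h.norm1 n, mul_one] at h1
    simp only [sub_re, one_re]
    linarith
  have hw0 : ww (ζ n) z ≠ 0 := by
    intro h1
    rw [h1, Complex.zero_re] at hwre
    exact lt_irrefl _ hwre
  have hk0 : kk α (1 / ‖1 - ζ n‖ ^ (1 / α - 1)) (ww (ζ n) z) ≠ 0 :=
    kk_ne α _ h.a0 h.a1 (by positivity) _ hwre.le hw0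
  have hwd : DifferentiableAt ℂ (fun z => ww (ζ n) z) z := by
    unfold ww
    fun_prop
  have hkd : DifferentiableAt ℂ (fun z => kk α (1 / ‖1 - ζ n‖ ^ (1 / α - 1)) (ww (ζ n) z)) z := by
    unfold kk
    apply DifferentiableAt.add
    · exact hwd.const_mul _
    · apply DifferentiableAt.cpow hwd (differentiableAt_const _)
      rw [mem_slitPlane_iff]
      exact Or.inl hwre
  unfold KK
  exact (differentiableAt_const _).div hkd hk0

theorem FF_differentiableOn (h : Data α ζ m1 C) (κ : ℝ) (hκ : 0 < κ) :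
    DifferentiableOn ℂ (FF α κ ζ) (ball 0 1) := by
  intro z hz
  rw [mem_ball_zero_iff] at hz
  apply DifferentiableAt.differentiableWithinAt
  unfold FF
  apply DifferentiableAt.add
  · have hne : 1 - z ≠ 0 := by
      intro h1
      have : z = 1 := (sub_eq_zero.1 h1).symm
      rw [this, norm_one] at hz
      exact lt_irrefl _ hz
    have hd : DifferentiableAt ℂ (fun z : ℂ => 1 - z) z := by fun_prop
    exact (differentiableAt_const _).div hd hne
  · obtain ⟨r, hr1, hr2⟩ := exists_between hz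
    have hD : DifferentiableOn ℂ (fun w => ∑' n, KK α κ ζ n w) (ball 0 r) := by
      apply differentiableOn_tsum_of_summable_norm
        (u := fun n => κ / (1 - r) * ‖1 - ζ n‖ ^ (1 / α - 1)) (h.sumM.mul_left _)
      · intro n w hw
        rw [mem_ball_zero_iff] at hw
        exact (KK_differentiableAt h κ n w (hw.trans hr2)).differentiableWithinAt
      · exact isOpen_ball
      · intro n w hw
        rw [mem_ball_zero_iff] at hw
        refine (h.KK_le κ hκ n w (hw.trans hr2).le).trans ?_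
        have hM := h.Mpos n
        have h1 : 1 - r ≤ ‖ζ n - w‖ := by
          have := norm_sub_norm_le (ζ n) w
          rw [h.norm1 n] at this
          linarith
        have h2 : 0 < 1 - r := by linarith
        have h3 : ‖1 - ζ n‖ ^ (1 / α - 1) / ‖ζ n - w‖ ≤ ‖1 - ζ n‖ ^ (1 / α - 1) / (1 - r) :=
          div_le_div_of_nonneg_left hM.le h2 h1
        calc κ * (‖1 - ζ n‖ ^ (1 / α - 1) / ‖ζ n - w‖)
            ≤ κ * (‖1 - ζ n‖ ^ (1 / α - 1) / (1 - r)) := mul_le_mul_of_nonneg_left h3 hκ.le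
          _ = κ / (1 - r) * ‖1 - ζ n‖ ^ (1 / α - 1) := by ring
    exact hD.differentiableAt (isOpen_ball.mem_nhds (by rwa [mem_ball_zero_iff]))

/-- the abstract form of the construction -/
theorem Data.exists_peak [Nonempty ι] (h : Data α ζ m1 C) :
    ∃ f : ℂ → ℂ, DifferentiableOn ℂ f (ball 0 1) ∧
      (∃ L, ∀ z z', ‖z‖ ≤ 1 → ‖z'‖ ≤ 1 → ‖f z - f z'‖ ≤ L * ‖z - z'‖ ^ α) ∧
      (∀ z, (z = 1 ∨ z ∈ Set.range ζ) → f z = 1) ∧
      (∀ z, ‖z‖ ≤ 1 → ¬ (z = 1 ∨ z ∈ Set.range ζ) → ‖f z‖ < 1) := by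
  classical
  have hc0 := cc_pos α h.a0 h.a1
  have hc1 := cc_le α
  have hm := h.m1_nonneg
  have hC := h.C_nonneg
  set D := 2 * m1 + 4 * C with hD
  have hD0 : 0 ≤ D := by positivity
  set κ := cc α / (4 * (1 + m1) * (1 + D)) with hκdef
  have hden : 0 < 4 * (1 + m1) * (1 + D) := by positivity
  have hκ : 0 < κ := by positivity
  have hκd : κ * (4 * (1 + m1) * (1 + D)) = cc α := div_mul_cancel₀ _ hden.ne'
  have hκm : 0 ≤ κ * m1 := by positivity
  have hκD : 0 ≤ κ * D := by positivity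
  have hκmD : 0 ≤ κ * m1 * D := by positivity
  have hκe : 4 * κ + 4 * (κ * m1) + 4 * (κ * D) + 4 * (κ * m1 * D) = cc α := by
    rw [← hκd]
    ring
  have hκ1 : κ ≤ 1 / 4 := by linarith
  have hκ2 : κ * m1 ≤ 1 / 4 := by linarith
  have hκ3 : κ * (2 * m1 + 4 * C) ≤ cc α / 2 := by
    rw [← hD]
    linarith
  set u : ℂ → ℂ := fun z => if z = 1 ∨ z ∈ Set.range ζ then 0 else (FF α κ ζ z)⁻¹ with hu
  have hu0 : ∀ z, (z = 1 ∨ z ∈ Set.range ζ) → u z = 0 := fun z hz => by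
    rw [hu]
    exact if_pos hz
  have hu1 : ∀ z, ¬ (z = 1 ∨ z ∈ Set.range ζ) → u z = (FF α κ ζ z)⁻¹ := fun z hz => by
    rw [hu]
    exact if_neg hz
  have hout : ∀ z, ¬ (z = 1 ∨ z ∈ Set.range ζ) → z ≠ 1 ∧ ∀ n, z ≠ ζ n := by
    intro z hz
    rw [not_or] at hz
    exact ⟨hz.1, fun n hn => hz.2 ⟨n, hn.symm⟩⟩
  have hFne : ∀ z, ‖z‖ ≤ 1 → ¬ (z = 1 ∨ z ∈ Set.range ζ) → 0 < ‖FF α κ ζ z‖ := by
    intro z hz hE
    obtain ⟨h1, h2⟩ := hout z hE
    refine lt_of_lt_of_le ?_ (h.lower κ hκ hκ1 hκ2 hκ3 z hz h1 h2)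
    have hρ0 : 0 < ‖1 - z‖ := norm_pos_iff.2 (sub_ne_zero.2 h1.symm)
    have hS0 : 0 ≤ ∑' n, ‖KK α κ ζ n z‖ := tsum_nonneg (fun n => norm_nonneg _)
    positivity
  have hc50 : 0 ≤ c5 α κ := by
    unfold c5
    positivity
  have hc60 : 0 ≤ c6 α κ := by
    unfold c6
    positivity
  refine ⟨fun z => 1 - u z, ?_, ⟨c5 α κ + c6 α κ, ?_⟩, ?_, ?_⟩
  · apply DifferentiableOn.const_sub
    have h1 : DifferentiableOn ℂ (fun z => (FF α κ ζ z)⁻¹) (ball 0 1) := by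
      apply (FF_differentiableOn h κ hκ).inv
      intro z hz
      rw [mem_ball_zero_iff] at hz
      have hE : ¬ (z = 1 ∨ z ∈ Set.range ζ) := by
        rintro (rfl | ⟨n, rfl⟩)
        · rw [norm_one] at hz
          exact lt_irrefl _ hz
        · rw [h.norm1 n] at hz
          exact lt_irrefl _ hz
      exact norm_pos_iff.1 (hFne z hz.le hE)
    apply h1.congr
    intro z hz
    rw [mem_ball_zero_iff] at hz
    apply hu1
    rintro (rfl | ⟨n, rfl⟩)
    · rw [norm_one] at hz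
      exact lt_irrefl _ hz
    · rw [h.norm1 n] at hz
      exact lt_irrefl _ hz
  · intro z z' hz hz'
    have e : (1 - u z) - (1 - u z') = u z' - u z := by ring
    show ‖(1 - u z) - (1 - u z')‖ ≤ _
    rw [e]
    have hδα : 0 ≤ ‖z - z'‖ ^ α := by positivity
    by_cases hE : z = 1 ∨ z ∈ Set.range ζ
    · by_cases hE' : z' = 1 ∨ z' ∈ Set.range ζ
      · rw [hu0 z hE, hu0 z' hE', sub_zero, norm_zero]
        positivity
      · rw [hu0 z hE, hu1 z' hE', sub_zero]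
        have h1 := h.inv_le κ hκ hκ1 hκ2 hκ3 z' z hz' (hout z' hE').1 (hout z' hE').2 hE
        rw [norm_sub_rev z' z] at h1
        refine h1.trans (mul_le_mul_of_nonneg_right (by linarith) hδα)
    · by_cases hE' : z' = 1 ∨ z' ∈ Set.range ζ
      · rw [hu1 z hE, hu0 z' hE', zero_sub, norm_neg]
        have h1 := h.inv_le κ hκ hκ1 hκ2 hκ3 z z' hz (hout z hE).1 (hout z hE).2 hE'
        refine h1.trans (mul_le_mul_of_nonneg_right (by linarith) hδα)
      · rw [hu1 z hE, hu1 z' hE']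
        have hF := hFne z hz hE
        have hF' := hFne z' hz' hE'
        have h1 := h.FF_diff κ hκ hκ1 hκ2 hκ3 z z' hz hz' (hout z hE).1 (hout z' hE').1
          (hout z hE).2 (hout z' hE').2
        have hne : FF α κ ζ z ≠ 0 := norm_pos_iff.1 hF
        have hne' : FF α κ ζ z' ≠ 0 := norm_pos_iff.1 hF'
        have e1 : (FF α κ ζ z')⁻¹ - (FF α κ ζ z)⁻¹ =
            (FF α κ ζ z - FF α κ ζ z') * ((FF α κ ζ z)⁻¹ * (FF α κ ζ z')⁻¹) := by
          field_simp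
        rw [e1, norm_mul, norm_mul, norm_inv, norm_inv]
        have h2 : ‖FF α κ ζ z - FF α κ ζ z'‖ * (‖FF α κ ζ z‖⁻¹ * ‖FF α κ ζ z'‖⁻¹) ≤
            c5 α κ * ‖z - z'‖ ^ α * (‖FF α κ ζ z‖ * ‖FF α κ ζ z'‖) *
              (‖FF α κ ζ z‖⁻¹ * ‖FF α κ ζ z'‖⁻¹) :=
          mul_le_mul_of_nonneg_right h1 (by positivity)
        have e2 : c5 α κ * ‖z - z'‖ ^ α * (‖FF α κ ζ z‖ * ‖FF α κ ζ z'‖) *
              (‖FF α κ ζ z‖⁻¹ * ‖FF α κ ζ z'‖⁻¹) = c5 α κ * ‖z - z'‖ ^ α := by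
          have hn1 := hF.ne'
          have hn2 := hF'.ne'
          field_simp
        rw [e2] at h2
        refine h2.trans (mul_le_mul_of_nonneg_right (by linarith) hδα)
  · intro z hz
    show 1 - u z = 1
    rw [hu0 z hz, sub_zero]
  · intro z hz hE
    show ‖1 - u z‖ < 1
    rw [hu1 z hE]
    have hF := hFne z hz hE
    have hne : FF α κ ζ z ≠ 0 := norm_pos_iff.1 hF
    have hre := h.FF_re κ hκ z hz (hout z hE).1 (hout z hE).2
    have e : 1 - (FF α κ ζ z)⁻¹ = (FF α κ ζ z - 1) * (FF α κ ζ z)⁻¹ := by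
      field_simp
    rw [e, norm_mul, norm_inv, ← div_eq_mul_inv, div_lt_one hF]
    have h1 : ‖FF α κ ζ z - 1‖ ^ 2 < ‖FF α κ ζ z‖ ^ 2 := by
      rw [Complex.sq_norm, Complex.sq_norm, Complex.normSq_apply, Complex.normSq_apply]
      simp only [sub_re, one_re, sub_im, one_im, sub_zero]
      nlinarith
    exact lt_of_pow_lt_pow_left₀ 2 hF.le h1

end Pool.Agent.J4H86.PK
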