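import Mathlib
import Pool.Agent.J4H86.PK.Hold

set_option autoImplicit false

open Complex Metric MeasureTheory
open scoped Topology ENNReal

namespace Pool.Agent.J4H86.PK

/-- a point of the circle -/
noncomputable def ex (x : ℝ) : ℂ := Complex.exp (I * (x : ℂ))

theorem ex_norm (x : ℝ) : ‖ex x‖ = 1 := by
  unfold ex
  rw [mul_comm]
  exact Complex.norm_exp_ofReal_mul_I x

theorem ex_sub (x y : ℝ) : ‖ex x - ex y‖ = ‖ex (x - y) - 1‖ := by
  have e : ex x - ex y = ex y * (ex (x - y) - 1) := by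
    unfold ex
    rw [mul_sub, ← Complex.exp_add, mul_one]
    congr 2
    push_cast
    ring
  rw [e, norm_mul, ex_norm, one_mul]

theorem ex_zero : ex 0 = 1 := by
  unfold ex
  simp

theorem ex_le (x y : ℝ) : ‖ex x - ex y‖ ≤ |x - y| := by
  rw [ex_sub]
  exact Real.norm_exp_I_mul_ofReal_sub_one_le

theorem ex_ge (x y : ℝ) (h : |x - y| ≤ 3) : 1 / 2 * |x - y| ≤ ‖ex x - ex y‖ := by
  rw [ex_sub]
  unfold ex
  rw [Complex.norm_exp_I_mul_ofReal_sub_one, norm_mul, Real.norm_eq_abs, Real.norm_eq_abs]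
  have hpi := Real.pi_gt_three
  have hpi4 := Real.pi_le_four
  have h1 : |(x - y) / 2| ≤ Real.pi / 2 := by
    rw [abs_div, abs_of_pos (by norm_num : (0 : ℝ) < 2)]
    linarith
  have h2 := Real.mul_abs_le_abs_sin h1
  rw [abs_div, abs_of_pos (by norm_num : (0 : ℝ) < 2)] at h2
  have h3 : 1 / 2 ≤ 2 / Real.pi := by
    rw [div_le_div_iff₀ (by norm_num) Real.pi_pos]
    linarith
  have h4 : 1 / 2 * (|x - y| / 2) ≤ 2 / Real.pi * (|x - y| / 2) :=
    mul_le_mul_of_nonneg_right h3 (by positivity)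
  rw [abs_of_pos (by norm_num : (0 : ℝ) < 2)]
  linarith

/-- the harmonic bound -/
theorem harm (N i0 : ℕ) (h : i0 < N) :
    ∑ i ∈ Finset.range N, 1 / |(i : ℝ) - i0| ≤ 2 * (1 + Real.log N) := by
  have hH : ∀ n : ℕ, n ≤ N → ∑ i ∈ Finset.range n, 1 / ((i : ℝ) + 1) ≤ 1 + Real.log N := by
    intro n hn
    have e : ∑ i ∈ Finset.range n, 1 / ((i : ℝ) + 1) = ((harmonic n : ℚ) : ℝ) := by
      unfold harmonic
      push_cast
      apply Finset.sum_congr rfl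
      intro i _
      rw [one_div]
    rw [e]
    rcases Nat.eq_zero_or_pos n with h0 | h0
    · rw [h0]
      simp only [harmonic_zero, Rat.cast_zero]
      have hN : (1 : ℝ) ≤ N := by
        have : 1 ≤ N := by omega
        exact_mod_cast this
      have := Real.log_nonneg hN
      linarith
    · refine (harmonic_le_one_add_log n).trans ?_
      have h1 : (0 : ℝ) < n := by exact_mod_cast h0
      have h2 : (n : ℝ) ≤ N := by exact_mod_cast hn
      have := Real.log_le_log h1 h2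
      linarith
  rw [← Finset.sum_range_add_sum_Ico _ h.le]
  have h1 : ∑ i ∈ Finset.range i0, 1 / |(i : ℝ) - i0| ≤ 1 + Real.log N := by
    rw [← Finset.sum_range_reflect]
    refine le_trans (le_of_eq ?_) (hH i0 h.le)
    apply Finset.sum_congr rfl
    intro i hi
    rw [Finset.mem_range] at hi
    have e : ((i0 - 1 - i : ℕ) : ℝ) = (i0 : ℝ) - 1 - i := by
      have h2 : i ≤ i0 - 1 := by omega
      have h3 : 1 ≤ i0 := by omega
      rw [Nat.cast_sub h2, Nat.cast_sub h3, Nat.cast_one]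
    rw [e]
    have e2 : (i0 : ℝ) - 1 - i - i0 = -((i : ℝ) + 1) := by ring
    rw [e2, abs_neg, abs_of_pos (by positivity)]
  have h2 : ∑ i ∈ Finset.Ico i0 N, 1 / |(i : ℝ) - i0| ≤ 1 + Real.log N := by
    rw [Finset.sum_Ico_eq_sum_range]
    obtain ⟨K, hK⟩ : ∃ K, N - i0 = K + 1 := ⟨N - i0 - 1, by omega⟩
    rw [hK, Finset.sum_range_succ']
    have e0 : 1 / |((i0 + 0 : ℕ) : ℝ) - i0| = 0 := by simp
    rw [e0, add_zero]
    refine le_trans (le_of_eq ?_) (hH K (by omega))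
    apply Finset.sum_congr rfl
    intro i hi
    have e2 : ((i0 + (i + 1) : ℕ) : ℝ) - i0 = (i : ℝ) + 1 := by
      push_cast
      ring
    rw [e2, abs_of_pos (by positivity)]
  linarith

section
variable (α : ℝ)

/-- the block radii -/
noncomputable def rr (j : ℕ) : ℝ := (1 / 2) ^ j

/-- the spacings -/
noncomputable def ll (j : ℕ) : ℝ := (((j : ℝ) + 1) * rr j) ^ (1 / α)

/-- the number of points of a block -/
noncomputable def NN (j : ℕ) : ℕ := ⌊rr j / (2 * ll α j)⌋₊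

/-- the angles -/
noncomputable def xx (s : Σ j : ℕ, Fin (NN α j)) : ℝ := rr s.1 + (s.2 : ℕ) * ll α s.1

/-- the points -/
noncomputable def zz (s : Σ j : ℕ, Fin (NN α j)) : ℂ := ex (xx α s)

theorem rr_pos (j : ℕ) : 0 < rr j := by
  unfold rr
  positivity

theorem rr_le (j : ℕ) : rr j ≤ 1 := pow_le_one₀ (by norm_num) (by norm_num)

theorem ll_pos (j : ℕ) : 0 < ll α j := by
  have := rr_pos j
  unfold ll
  positivity

theorem NN_le (j : ℕ) : (NN α j : ℝ) ≤ rr j / (2 * ll α j) := by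
  have h1 := rr_pos j
  have h2 := ll_pos α j
  exact Nat.floor_le (by positivity)

theorem NN_mul (j : ℕ) : (NN α j : ℝ) * ll α j ≤ rr j / 2 := by
  have h2 := ll_pos α j
  have h1 := mul_le_mul_of_nonneg_right (NN_le α j) h2.le
  have e : rr j / (2 * ll α j) * ll α j = rr j / 2 := by field_simp
  rwa [e] at h1

theorem xx_ge (s : Σ j : ℕ, Fin (NN α j)) : rr s.1 ≤ xx α s := by
  have h2 := ll_pos α s.1
  unfold xx
  have : 0 ≤ ((s.2 : ℕ) : ℝ) * ll α s.1 := by positivity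
  linarith

theorem xx_lt (s : Σ j : ℕ, Fin (NN α j)) : xx α s < 3 / 2 * rr s.1 := by
  have h2 := ll_pos α s.1
  have h3 := NN_mul α s.1
  have h4 : ((s.2 : ℕ) : ℝ) < (NN α s.1 : ℝ) := by exact_mod_cast s.2.2
  have h5 := mul_lt_mul_of_pos_right h4 h2
  unfold xx
  linarith

theorem rr_anti {j k : ℕ} (h : j < k) : rr k ≤ rr j / 2 := by
  unfold rr
  have h1 : (1 / 2 : ℝ) ^ k ≤ (1 / 2) ^ (j + 1) :=
    pow_le_pow_of_le_one (by norm_num) (by norm_num) h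
  rw [pow_succ] at h1
  linarith

theorem xx_sep (s t : Σ j : ℕ, Fin (NN α j)) (h : s.1 ≠ t.1) : rr s.1 / 4 ≤ |xx α s - xx α t| := by
  have h1 := xx_ge α s
  have h2 := xx_lt α s
  have h3 := xx_ge α t
  have h4 := xx_lt α t
  have h5 := rr_pos s.1
  have h6 := rr_pos t.1
  rcases lt_or_gt_of_ne h with hlt | hgt
  · have h7 := rr_anti hlt
    rw [abs_of_nonneg (by linarith)]
    linarith
  · have h7 := rr_anti hgt
    rw [abs_of_nonpos (by linarith)]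
    linarith

theorem xx_abs (s t : Σ j : ℕ, Fin (NN α j)) : |xx α s - xx α t| ≤ 3 := by
  have h1 := xx_ge α s
  have h2 := xx_lt α s
  have h3 := xx_ge α t
  have h4 := xx_lt α t
  have h5 := rr_pos s.1
  have h6 := rr_pos t.1
  have h7 := rr_le s.1
  have h8 := rr_le t.1
  rw [abs_le]
  constructor <;> linarith

theorem xx_inj : Function.Injective (xx α) := by
  intro s t h
  by_cases hst : s.1 = t.1
  · obtain ⟨j, i⟩ := s
    obtain ⟨k, i'⟩ := t
    simp only at hst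
    subst hst
    have h2 := ll_pos α j
    unfold xx at h
    simp only at h
    have h3 : ((i : ℕ) : ℝ) * ll α j = ((i' : ℕ) : ℝ) * ll α j := by linarith
    have h4 : ((i : ℕ) : ℝ) = ((i' : ℕ) : ℝ) := mul_right_cancel₀ h2.ne' h3
    have h5 : (i : ℕ) = (i' : ℕ) := by exact_mod_cast h4
    have h6 : i = i' := Fin.ext h5
    rw [h6]
  · exfalso
    have h1 := xx_sep α s t hst
    rw [h, sub_self, abs_zero] at h1
    have := rr_pos s.1
    linarith

theorem zz_ge (s t : Σ j : ℕ, Fin (NN α j)) : 1 / 2 * |xx α s - xx α t| ≤ ‖zz α s - zz α t‖ :=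
  ex_ge _ _ (xx_abs α s t)

theorem zz_inj : Function.Injective (zz α) := by
  intro s t h
  apply xx_inj α
  have h1 := zz_ge α s t
  rw [h, sub_self, norm_zero] at h1
  have h2 : |xx α s - xx α t| = 0 := le_antisymm (by linarith) (abs_nonneg _)
  exact sub_eq_zero.1 (abs_eq_zero.1 h2)

theorem one_sub_zz_le (s : Σ j : ℕ, Fin (NN α j)) : ‖1 - zz α s‖ ≤ 2 * rr s.1 := by
  have h1 := ex_le 0 (xx α s)
  rw [ex_zero, zero_sub, abs_neg] at h1
  have h2 := xx_lt α s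
  have h3 := xx_ge α s
  have h4 := rr_pos s.1
  rw [abs_of_pos (by linarith)] at h1
  unfold zz
  linarith

theorem one_sub_zz_pos (s : Σ j : ℕ, Fin (NN α j)) : 0 < ‖1 - zz α s‖ := by
  have h2 := xx_lt α s
  have h3 := xx_ge α s
  have h4 := rr_pos s.1
  have h5 := rr_le s.1
  have h1 := ex_ge 0 (xx α s) (by
    rw [zero_sub, abs_neg, abs_of_pos (by linarith)]
    linarith)
  rw [ex_zero, zero_sub, abs_neg, abs_of_pos (by linarith)] at h1
  unfold zz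
  linarith

theorem ll_eq (j : ℕ) : ll α j = ((j : ℝ) + 1) ^ (1 / α) * rr j ^ (1 / α) := by
  unfold ll
  exact Real.mul_rpow (by positivity) (rr_pos j).le

theorem p_pos (h0 : 0 < α) (h1 : α < 1) : 0 < 1 / α - 1 := by
  have : 1 < 1 / α := by
    rw [lt_div_iff₀ h0, one_mul]
    exact h1
  linarith

theorem M_le (h0 : 0 < α) (h1 : α < 1) (s : Σ j : ℕ, Fin (NN α j)) :
    ‖1 - zz α s‖ ^ (1 / α - 1) ≤ (2 * rr s.1) ^ (1 / α - 1) :=
  Real.rpow_le_rpow (norm_nonneg _) (one_sub_zz_le α s) (p_pos α h0 h1).le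

/-- the key power identity -/
theorem rr_ll (j : ℕ) : rr j / (2 * ll α j) * (2 * rr j) ^ (1 / α - 1) =
    2 ^ (1 / α - 1) / 2 * (((j : ℝ) + 1) ^ (1 / α))⁻¹ := by
  have hr := rr_pos j
  rw [Real.mul_rpow (by norm_num) hr.le, ll_eq]
  have h1 : rr j ^ (1 / α) = rr j ^ (1 / α - 1) * rr j := by
    rw [← Real.rpow_add_one hr.ne']
    congr 1
    ring
  rw [h1]
  have h2 : 0 < rr j ^ (1 / α - 1) := by positivity
  have h3 : 0 < ((j : ℝ) + 1) ^ (1 / α) := by positivity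
  field_simp

theorem block_M (h0 : 0 < α) (h1 : α < 1) (j : ℕ) :
    ∑ i : Fin (NN α j), ‖1 - zz α ⟨j, i⟩‖ ^ (1 / α - 1) ≤
      2 ^ (1 / α - 1) / 2 * (((j : ℝ) + 1) ^ (1 / α))⁻¹ := by
  have h2 : ∑ i : Fin (NN α j), ‖1 - zz α ⟨j, i⟩‖ ^ (1 / α - 1) ≤
      ∑ _i : Fin (NN α j), (2 * rr j) ^ (1 / α - 1) :=
    Finset.sum_le_sum (fun i _ => M_le α h0 h1 ⟨j, i⟩)
  refine h2.trans ?_
  rw [Finset.sum_const, Finset.card_univ, Fintype.card_fin, nsmul_eq_mul, ← rr_ll]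
  have hr := rr_pos j
  exact mul_le_mul_of_nonneg_right (NN_le α j) (by positivity)

theorem summable_inv_pow (h0 : 0 < α) (h1 : α < 1) :
    Summable (fun j : ℕ => (((j : ℝ) + 1) ^ (1 / α))⁻¹) := by
  have h2 : 1 < 1 / α := by
    have := p_pos α h0 h1
    linarith
  have h3 := (Real.summable_nat_rpow_inv.2 h2)
  have h4 := (summable_nat_add_iff 1).2 h3
  refine h4.congr (fun j => ?_)
  push_cast
  rfl

theorem block_M_summable (h0 : 0 < α) (h1 : α < 1) :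
    Summable (fun j => ∑ i : Fin (NN α j), ‖1 - zz α ⟨j, i⟩‖ ^ (1 / α - 1)) :=
  Summable.of_nonneg_of_le (fun j => Finset.sum_nonneg (fun i _ => by positivity))
    (fun j => block_M α h0 h1 j) ((summable_inv_pow α h0 h1).mul_left _)

theorem M_summable (h0 : 0 < α) (h1 : α < 1) :
    Summable (fun s => ‖1 - zz α s‖ ^ (1 / α - 1)) := by
  rw [summable_sigma_of_nonneg (fun s => by positivity)]
  refine ⟨fun j => (hasSum_fintype _).summable, ?_⟩
  refine (block_M_summable α h0 h1).congr (fun j => ?_)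
  rw [tsum_fintype]

theorem M_tsum (h0 : 0 < α) (h1 : α < 1) :
    ∑' j, ∑ i : Fin (NN α j), ‖1 - zz α ⟨j, i⟩‖ ^ (1 / α - 1) =
      ∑' s, ‖1 - zz α s‖ ^ (1 / α - 1) := by
  rw [(M_summable α h0 h1).tsum_sigma' (fun j => (hasSum_fintype _).summable)]
  apply tsum_congr
  intro j
  rw [tsum_fintype]

theorem log_NN (h0 : 0 < α) (h1 : α < 1) (j : ℕ) (hN : 0 < NN α j) :
    Real.log (NN α j) ≤ j * (1 / α - 1) := by
  have hN' : (0 : ℝ) < NN α j := by exact_mod_cast hN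
  have hp := p_pos α h0 h1
  have hr := rr_pos j
  have hl := ll_pos α j
  have h2 : (NN α j : ℝ) ≤ 2 ^ ((j : ℝ) * (1 / α - 1)) := by
    refine (NN_le α j).trans ?_
    rw [div_le_iff₀ (by positivity), ll_eq]
    have h3 : rr j ^ (1 / α) = rr j ^ (1 / α - 1) * rr j := by
      rw [← Real.rpow_add_one hr.ne']
      congr 1
      ring
    have h4 : (2 : ℝ) ^ ((j : ℝ) * (1 / α - 1)) * rr j ^ (1 / α - 1) = 1 := by
      rw [Real.rpow_mul (by norm_num), Real.rpow_natCast, ← Real.mul_rpow (by positivity) hr.le]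
      unfold rr
      rw [← mul_pow]
      norm_num
    have h5 : (1 : ℝ) ≤ ((j : ℝ) + 1) ^ (1 / α) := by
      apply Real.one_le_rpow
      · have : (0 : ℝ) ≤ j := by positivity
        linarith
      · positivity
    rw [h3]
    have e : (2 : ℝ) ^ ((j : ℝ) * (1 / α - 1)) * (2 * (((j : ℝ) + 1) ^ (1 / α) *
        (rr j ^ (1 / α - 1) * rr j))) = 2 * ((j : ℝ) + 1) ^ (1 / α) *
        ((2 : ℝ) ^ ((j : ℝ) * (1 / α - 1)) * rr j ^ (1 / α - 1)) * rr j := by ring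
    rw [e, h4]
    nlinarith
  have h3 := Real.log_le_log hN' h2
  rw [Real.log_rpow (by norm_num)] at h3
  refine h3.trans ?_
  have h4 : Real.log 2 ≤ 1 := by
    have := Real.log_two_lt_d9
    linarith
  have h5 : 0 ≤ (j : ℝ) * (1 / α - 1) := by positivity
  nlinarith

/-- the sum over the own block -/
theorem own_block (h0 : 0 < α) (h1 : α < 1) (k : ℕ) (i0 : Fin (NN α k)) :
    ∑ i : Fin (NN α k), ‖1 - zz α ⟨k, i⟩‖ ^ (1 / α - 1) * ‖1 - zz α ⟨k, i⟩‖ /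
      ‖zz α ⟨k, i⟩ - zz α ⟨k, i0⟩‖ ≤ 2 ^ (1 / α - 1) * 8 * (1 / α) := by
  have hp := p_pos α h0 h1
  have hr := rr_pos k
  have hl := ll_pos α k
  have hN : 0 < NN α k := lt_of_le_of_lt (Nat.zero_le _) i0.2
  have hterm : ∀ i : Fin (NN α k), ‖1 - zz α ⟨k, i⟩‖ ^ (1 / α - 1) * ‖1 - zz α ⟨k, i⟩‖ /
      ‖zz α ⟨k, i⟩ - zz α ⟨k, i0⟩‖ ≤ (2 * rr k) ^ (1 / α - 1) * (2 * rr k) / (1 / 2 * ll α k) *
        (1 / |((i : ℕ) : ℝ) - ((i0 : ℕ) : ℝ)|) := by
    intro i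
    rcases eq_or_ne i i0 with h2 | h2
    · rw [h2, sub_self, norm_zero, div_zero, sub_self, abs_zero, div_zero, mul_zero]
    · have h3 : ((i : ℕ) : ℝ) - ((i0 : ℕ) : ℝ) ≠ 0 := by
        intro h4
        apply h2
        apply Fin.ext
        have : ((i : ℕ) : ℝ) = ((i0 : ℕ) : ℝ) := sub_eq_zero.1 h4
        exact_mod_cast this
      have h4 : 0 < |((i : ℕ) : ℝ) - ((i0 : ℕ) : ℝ)| := abs_pos.2 h3
      have h5 := zz_ge α ⟨k, i⟩ ⟨k, i0⟩
      have h6 : |xx α ⟨k, i⟩ - xx α ⟨k, i0⟩| = |((i : ℕ) : ℝ) - ((i0 : ℕ) : ℝ)| * ll α k := by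
        have e : xx α ⟨k, i⟩ - xx α ⟨k, i0⟩ = (((i : ℕ) : ℝ) - ((i0 : ℕ) : ℝ)) * ll α k := by
          unfold xx
          ring
        rw [e, abs_mul, abs_of_pos hl]
      rw [h6] at h5
      have h7 : (2 * rr k) ^ (1 / α - 1) * (2 * rr k) / (1 / 2 * ll α k) *
          (1 / |((i : ℕ) : ℝ) - ((i0 : ℕ) : ℝ)|) = (2 * rr k) ^ (1 / α - 1) * (2 * rr k) /
          (1 / 2 * (|((i : ℕ) : ℝ) - ((i0 : ℕ) : ℝ)| * ll α k)) := by
        field_simp
      rw [h7]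
      apply div_le_div₀ (by positivity) _ (by positivity) h5
      exact mul_le_mul (M_le α h0 h1 ⟨k, i⟩) (one_sub_zz_le α ⟨k, i⟩) (norm_nonneg _)
        (by positivity)
  refine (Finset.sum_le_sum (fun i _ => hterm i)).trans ?_
  rw [← Finset.mul_sum, Fin.sum_univ_eq_sum_range
    (fun i => 1 / |(i : ℝ) - ((i0 : ℕ) : ℝ)|) (NN α k)]
  have h2 := harm (NN α k) i0 i0.2
  have h3 := log_NN α h0 h1 k hN
  have hk : (0 : ℝ) ≤ k := by positivity
  have h4 : 2 * (1 + Real.log (NN α k)) ≤ 2 * (((k : ℝ) + 1) * (1 / α)) := by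
    nlinarith
  have h5 : (2 * rr k) ^ (1 / α - 1) * (2 * rr k) / (1 / 2 * ll α k) =
      2 ^ (1 / α - 1) * 4 * (((k : ℝ) + 1) ^ (1 / α))⁻¹ := by
    have h6 := rr_ll α k
    have e : (2 * rr k) ^ (1 / α - 1) * (2 * rr k) / (1 / 2 * ll α k) =
        8 * (rr k / (2 * ll α k) * (2 * rr k) ^ (1 / α - 1)) := by
      field_simp
      ring
    rw [e, h6]
    ring
  rw [h5]
  have h6 : 0 < ((k : ℝ) + 1) ^ (1 / α) := by positivity
  have h7 : ((k : ℝ) + 1) ≤ ((k : ℝ) + 1) ^ (1 / α) := by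
    have h8 : ((k : ℝ) + 1) ^ (1 : ℝ) ≤ ((k : ℝ) + 1) ^ (1 / α) :=
      Real.rpow_le_rpow_of_exponent_le (by linarith) (by linarith)
    rwa [Real.rpow_one] at h8
  calc 2 ^ (1 / α - 1) * 4 * (((k : ℝ) + 1) ^ (1 / α))⁻¹ *
        ∑ i ∈ Finset.range (NN α k), 1 / |(i : ℝ) - ((i0 : ℕ) : ℝ)|
      ≤ 2 ^ (1 / α - 1) * 4 * (((k : ℝ) + 1) ^ (1 / α))⁻¹ * (2 * (((k : ℝ) + 1) * (1 / α))) :=
        mul_le_mul_of_nonneg_left (h2.trans h4) (by positivity)
    _ = 2 ^ (1 / α - 1) * 8 * (1 / α) * (((k : ℝ) + 1) / ((k : ℝ) + 1) ^ (1 / α)) := by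
        field_simp
        ring
    _ ≤ 2 ^ (1 / α - 1) * 8 * (1 / α) * 1 := by
        apply mul_le_mul_of_nonneg_left _ (by positivity)
        rw [div_le_one h6]
        exact h7
    _ = _ := by ring

/-- the constant -/
noncomputable def m1c : ℝ := ∑' s, ‖1 - zz α s‖ ^ (1 / α - 1)

theorem data (h0 : 0 < α) (h1 : α < 1) :
    Data α (zz α) (m1c α) (16 * m1c α + 2 ^ (1 / α - 1) * 8 * (1 / α)) := by
  have hmain : ∀ m, Summable (fun n => ‖1 - zz α n‖ ^ (1 / α - 1) * ‖1 - zz α n‖ /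
      ‖zz α n - zz α m‖) ∧ ∑' n, ‖1 - zz α n‖ ^ (1 / α - 1) * ‖1 - zz α n‖ /
      ‖zz α n - zz α m‖ ≤ 16 * m1c α + 2 ^ (1 / α - 1) * 8 * (1 / α) := by
    intro m
    obtain ⟨k, i0⟩ := m
    set C2 : ℝ := 2 ^ (1 / α - 1) * 8 * (1 / α) with hC2
    have hC20 : 0 ≤ C2 := by positivity
    have hblock : ∀ j, ∑ i : Fin (NN α j), ‖1 - zz α ⟨j, i⟩‖ ^ (1 / α - 1) * ‖1 - zz α ⟨j, i⟩‖ /
        ‖zz α ⟨j, i⟩ - zz α ⟨k, i0⟩‖ ≤
        16 * (∑ i : Fin (NN α j), ‖1 - zz α ⟨j, i⟩‖ ^ (1 / α - 1)) +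
          (if j = k then C2 else 0) := by
      intro j
      by_cases hjk : j = k
      · subst hjk
        rw [if_pos rfl]
        have h2 := own_block α h0 h1 j i0
        have h3 : 0 ≤ 16 * (∑ i : Fin (NN α j), ‖1 - zz α ⟨j, i⟩‖ ^ (1 / α - 1)) := by
          apply mul_nonneg (by norm_num)
          exact Finset.sum_nonneg (fun i _ => by positivity)
        linarith
      · rw [if_neg hjk, add_zero, Finset.mul_sum]
        apply Finset.sum_le_sum
        intro i _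
        have hr := rr_pos j
        have h2 : rr j / 4 ≤ |xx α ⟨j, i⟩ - xx α ⟨k, i0⟩| := xx_sep α ⟨j, i⟩ ⟨k, i0⟩ hjk
        have h3 := zz_ge α ⟨j, i⟩ ⟨k, i0⟩
        have h4 : ‖1 - zz α ⟨j, i⟩‖ ≤ 2 * rr j := one_sub_zz_le α ⟨j, i⟩
        have h5 : 0 < ‖zz α ⟨j, i⟩ - zz α ⟨k, i0⟩‖ := by linarith
        rw [div_le_iff₀ h5]
        have h6 : 0 ≤ ‖1 - zz α ⟨j, i⟩‖ ^ (1 / α - 1) := by positivity
        have h7 : ‖1 - zz α ⟨j, i⟩‖ ≤ 16 * ‖zz α ⟨j, i⟩ - zz α ⟨k, i0⟩‖ := by linarith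
        have h8 := mul_le_mul_of_nonneg_left h7 h6
        linarith
    have hs1 : Summable (fun j : ℕ => (if j = k then C2 else 0)) :=
      (hasSum_ite_eq k C2).summable
    have hs2 : Summable (fun j : ℕ =>
        16 * (∑ i : Fin (NN α j), ‖1 - zz α ⟨j, i⟩‖ ^ (1 / α - 1))) :=
      (block_M_summable α h0 h1).mul_left _
    have hs3 : Summable (fun j : ℕ => ∑ i : Fin (NN α j), ‖1 - zz α ⟨j, i⟩‖ ^ (1 / α - 1) *
        ‖1 - zz α ⟨j, i⟩‖ / ‖zz α ⟨j, i⟩ - zz α ⟨k, i0⟩‖) :=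
      Summable.of_nonneg_of_le (fun j => Finset.sum_nonneg (fun i _ => by positivity)) hblock
        (hs2.add hs1)
    have hs4 : Summable (fun n => ‖1 - zz α n‖ ^ (1 / α - 1) * ‖1 - zz α n‖ /
        ‖zz α n - zz α ⟨k, i0⟩‖) := by
      rw [summable_sigma_of_nonneg (fun s => by positivity)]
      refine ⟨fun j => (hasSum_fintype _).summable, ?_⟩
      refine hs3.congr (fun j => ?_)
      rw [tsum_fintype]
    refine ⟨hs4, ?_⟩
    rw [hs4.tsum_sigma' (fun j => (hasSum_fintype _).summable)]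
    have e : ∀ j, ∑' i : Fin (NN α j), ‖1 - zz α ⟨j, i⟩‖ ^ (1 / α - 1) * ‖1 - zz α ⟨j, i⟩‖ /
        ‖zz α ⟨j, i⟩ - zz α ⟨k, i0⟩‖ = ∑ i : Fin (NN α j), ‖1 - zz α ⟨j, i⟩‖ ^ (1 / α - 1) *
        ‖1 - zz α ⟨j, i⟩‖ / ‖zz α ⟨j, i⟩ - zz α ⟨k, i0⟩‖ := fun j => tsum_fintype _
    rw [tsum_congr e]
    refine (hs3.tsum_le_tsum hblock (hs2.add hs1)).trans ?_
    rw [hs2.tsum_add hs1, tsum_mul_left, M_tsum α h0 h1, (hasSum_ite_eq k C2).tsum_eq]
    exact le_rfl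
  exact ⟨h0, h1, fun n => ex_norm _, fun n => by
      have := one_sub_zz_pos α n
      intro h2
      rw [h2, sub_self, norm_zero] at this
      exact lt_irrefl _ this,
    zz_inj α, M_summable α h0 h1, le_rfl, fun m => (hmain m).1, fun m => (hmain m).2⟩

end

end Pool.Agent.J4H86.PK
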