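import Mathlib
import Pool.Agent.J4H86.PK.Points

set_option autoImplicit false

open Complex Metric MeasureTheory Filter
open scoped Topology ENNReal

namespace Pool.Agent.J4H86.PK

variable (α : ℝ)

/-- the set -/
def EE : Set ℂ := {z | z = 1 ∨ z ∈ Set.range (zz α)}

theorem ll_small (h0 : 0 < α) (h1 : α < 1) : ∀ᶠ j : ℕ in atTop, ll α j ≤ rr j / 4 := by
  have hp := p_pos α h0 h1
  obtain ⟨K, hK⟩ := exists_nat_ge (1 / α)
  set q : ℝ := (1 / 2) ^ (1 / α - 1) with hq
  have hq0 : 0 < q := by positivity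
  have hq1 : q < 1 := Real.rpow_lt_one (by norm_num) (by norm_num) hp
  have h2 := tendsto_pow_const_mul_const_pow_of_lt_one K hq0.le hq1
  have h3 := (tendsto_add_atTop_iff_nat 1).2 h2
  have h4 : ∀ᶠ j : ℕ in atTop, ((j + 1 : ℕ) : ℝ) ^ K * q ^ (j + 1) < q / 4 :=
    h3.eventually_lt_const (by positivity)
  filter_upwards [h4] with j hj
  have hr := rr_pos j
  have h5 : ((j : ℝ) + 1) ^ (1 / α) ≤ ((j + 1 : ℕ) : ℝ) ^ K := by
    push_cast
    rw [← Real.rpow_natCast]
    apply Real.rpow_le_rpow_of_exponent_le _ hK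
    have : (0 : ℝ) ≤ j := by positivity
    linarith
  have h6 : rr j ^ (1 / α) = q ^ j * rr j := by
    have e1 : rr j ^ (1 / α) = rr j ^ (1 / α - 1) * rr j := by
      rw [← Real.rpow_add_one hr.ne']
      congr 1
      ring
    rw [e1]
    congr 1
    unfold rr
    rw [← Real.rpow_natCast, ← Real.rpow_mul (by norm_num), mul_comm, Real.rpow_mul (by norm_num),
      Real.rpow_natCast]
  rw [ll_eq, h6]
  have h7 : ((j : ℝ) + 1) ^ (1 / α) * q ^ j ≤ 1 / 4 := by
    have h8 : ((j : ℝ) + 1) ^ (1 / α) * q ^ j * q ≤ 1 / 4 * q := by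
      have h9 : ((j : ℝ) + 1) ^ (1 / α) * q ^ (j + 1) ≤ ((j + 1 : ℕ) : ℝ) ^ K * q ^ (j + 1) :=
        mul_le_mul_of_nonneg_right h5 (by positivity)
      rw [pow_succ] at h9 hj
      linarith
    exact le_of_mul_le_mul_right h8 hq0
  have h8 := mul_le_mul_of_nonneg_right h7 hr.le
  linarith

/-- the blocks of angles -/
def UU (j : ℕ) : Set ℝ := Set.Ico (rr j) (rr j + NN α j * ll α j)

theorem UU_sub (j : ℕ) : UU α j ⊆ Set.Ioc 0 (2 * Real.pi) := by
  intro θ hθ
  have h1 := NN_mul α j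
  have h2 := rr_pos j
  have h3 := rr_le j
  have h4 := Real.pi_gt_three
  have h5 := hθ.1
  have h6 := hθ.2
  constructor <;> linarith

theorem UU_disj : Pairwise (fun i j => Disjoint (UU α i) (UU α j)) := by
  have key : ∀ i j, i < j → Disjoint (UU α i) (UU α j) := by
    intro i j hij
    rw [Set.disjoint_left]
    intro θ hi hj
    have h1 := NN_mul α j
    have h2 := rr_anti hij
    have h3 := rr_pos i
    have h5 := hi.1
    have h6 := hj.2
    linarith
  intro i j hij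
  rcases lt_or_gt_of_ne hij with h | h
  · exact key i j h
  · exact (key j i h).symm

theorem dist_le (j : ℕ) (θ : ℝ) (hθ : θ ∈ UU α j) : infDist (ex θ) (EE α) ≤ ll α j := by
  have hl := ll_pos α j
  have h1 := hθ.1
  have h2 := hθ.2
  have hq0 : 0 ≤ (θ - rr j) / ll α j := div_nonneg (by linarith) hl.le
  have hlt : (θ - rr j) / ll α j < NN α j := by
    rw [div_lt_iff₀ hl]
    linarith
  have hfl : ⌊(θ - rr j) / ll α j⌋₊ < NN α j := (Nat.floor_lt hq0).2 hlt
  set s : Σ j : ℕ, Fin (NN α j) := ⟨j, ⟨⌊(θ - rr j) / ll α j⌋₊, hfl⟩⟩ with hs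
  have hmem : zz α s ∈ EE α := Or.inr ⟨s, rfl⟩
  refine (infDist_le_dist_of_mem hmem).trans ?_
  rw [dist_eq_norm]
  unfold zz
  refine (ex_le _ _).trans ?_
  have h3 := Nat.floor_le hq0
  have h4 := Nat.lt_floor_add_one ((θ - rr j) / ll α j)
  have h5 : (⌊(θ - rr j) / ll α j⌋₊ : ℝ) * ll α j ≤ θ - rr j := by
    rwa [le_div_iff₀ hl] at h3
  have h6 : θ - rr j < ((⌊(θ - rr j) / ll α j⌋₊ : ℝ) + 1) * ll α j := by
    rwa [div_lt_iff₀ hl] at h4
  have e : xx α s = rr j + (⌊(θ - rr j) / ll α j⌋₊ : ℝ) * ll α j := rfl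
  rw [e, abs_le]
  constructor <;> linarith

theorem ll_pow (h0 : 0 < α) (j : ℕ) : ll α j ^ α = ((j : ℝ) + 1) * rr j := by
  have hr := rr_pos j
  unfold ll
  rw [← Real.rpow_mul (by positivity), one_div, inv_mul_cancel₀ h0.ne', Real.rpow_one]

theorem block_int (h0 : 0 < α) (j : ℕ) (hj : ll α j ≤ rr j / 4) :
    ENNReal.ofReal (1 / (4 * ((j : ℝ) + 1))) ≤
      ∫⁻ θ in UU α j, (ENNReal.ofReal (infDist (ex θ) (EE α))) ^ (-α) := by
  have hl := ll_pos α j
  have hr := rr_pos j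
  have h1 : ∫⁻ _θ in UU α j, (ENNReal.ofReal (ll α j)) ^ (-α) ≤
      ∫⁻ θ in UU α j, (ENNReal.ofReal (infDist (ex θ) (EE α))) ^ (-α) := by
    apply setLIntegral_mono' measurableSet_Ico
    intro θ hθ
    rw [ENNReal.rpow_neg, ENNReal.rpow_neg, ENNReal.inv_le_inv]
    exact ENNReal.rpow_le_rpow (ENNReal.ofReal_le_ofReal (dist_le α j θ hθ)) h0.le
  refine le_trans ?_ h1
  rw [setLIntegral_const]
  have hvol : volume (UU α j) = ENNReal.ofReal (NN α j * ll α j) := by
    unfold UU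
    rw [Real.volume_Ico]
    congr 1
    ring
  rw [hvol, ENNReal.ofReal_rpow_of_pos hl, ← ENNReal.ofReal_mul (by positivity)]
  apply ENNReal.ofReal_le_ofReal
  have h2 : rr j / 4 ≤ NN α j * ll α j := by
    have h3 := Nat.lt_floor_add_one (rr j / (2 * ll α j))
    have h4 : rr j / (2 * ll α j) * ll α j = rr j / 2 := by field_simp
    have h5 := mul_lt_mul_of_pos_right h3 hl
    rw [h4] at h5
    have e : NN α j = ⌊rr j / (2 * ll α j)⌋₊ := rfl
    rw [e]
    linarith
  rw [Real.rpow_neg hl.le, ll_pow α h0]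
  have h3 : (((j : ℝ) + 1) * rr j)⁻¹ * (rr j / 4) = 1 / (4 * ((j : ℝ) + 1)) := by
    field_simp
  rw [← h3]
  exact mul_le_mul_of_nonneg_left h2 (by positivity)

theorem sum_top (J : ℕ) : ∑' j : ℕ, ENNReal.ofReal (if J ≤ j then 1 / (4 * ((j : ℝ) + 1)) else 0) =
    ⊤ := by
  by_contra hne
  have h1 := ENNReal.summable_toReal hne
  have h2 : Summable (fun j : ℕ => (if J ≤ j then 1 / (4 * ((j : ℝ) + 1)) else 0)) := by
    refine h1.congr (fun j => ?_)
    rw [ENNReal.toReal_ofReal]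
    split_ifs
    · positivity
    · exact le_rfl
  have h3 := (summable_nat_add_iff J).2 h2
  have h4 : Summable (fun j : ℕ => 4 * (if J ≤ j + J then 1 / (4 * (((j + J : ℕ) : ℝ) + 1)) else 0)) :=
    h3.mul_left 4
  have h5 : Summable (fun j : ℕ => 1 / ((j + (J + 1) : ℕ) : ℝ)) := by
    refine h4.congr (fun j => ?_)
    rw [if_pos (Nat.le_add_left J j)]
    push_cast
    have : (j : ℝ) + J + 1 ≠ 0 := by positivity
    rw [← add_assoc]
    field_simp
  exact Real.not_summable_one_div_natCast ((summable_nat_add_iff (J + 1)).1 h5)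

theorem diverges (h0 : 0 < α) (h1 : α < 1) :
    ∫⁻ θ in Set.Ioc 0 (2 * Real.pi), (ENNReal.ofReal (infDist (ex θ) (EE α))) ^ (-α) = ⊤ := by
  obtain ⟨J, hJ⟩ := eventually_atTop.1 (ll_small α h0 h1)
  rw [eq_top_iff, ← sum_top J]
  have h2 : ∫⁻ θ in ⋃ j, UU α j, (ENNReal.ofReal (infDist (ex θ) (EE α))) ^ (-α) ≤
      ∫⁻ θ in Set.Ioc 0 (2 * Real.pi), (ENNReal.ofReal (infDist (ex θ) (EE α))) ^ (-α) :=
    lintegral_mono_set (Set.iUnion_subset (fun j => UU_sub α j))
  refine le_trans ?_ h2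
  have hm : ∀ j, MeasurableSet (UU α j) := fun j => measurableSet_Ico
  rw [lintegral_iUnion hm (UU_disj α)]
  apply ENNReal.tsum_le_tsum
  intro j
  split_ifs with hj
  · exact block_int α h0 j (hJ j hj)
  · rw [ENNReal.ofReal_zero]
    exact zero_le

theorem EE_countable : (EE α).Countable := by
  have e : EE α = {1} ∪ Set.range (zz α) := by
    ext z
    rfl
  rw [e]
  exact (Set.countable_singleton 1).union (Set.countable_range _)

theorem ex_injOn : Set.InjOn ex (Set.Ioc 0 (2 * Real.pi)) := by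
  intro x hx y hy h
  unfold ex at h
  rw [Complex.exp_eq_exp_iff_exists_int] at h
  obtain ⟨n, hn⟩ := h
  have h1 : x = y + n * (2 * Real.pi) := by
    have h2 := congrArg Complex.im hn
    simpa using h2
  have hpi := Real.pi_pos
  have h3 : (n : ℝ) < 1 := by
    by_contra hcon
    push Not at hcon
    have := hx.2
    have := hy.1
    nlinarith
  have h4 : (-1 : ℝ) < n := by
    by_contra hcon
    push Not at hcon
    have := hx.1
    have := hy.2
    nlinarith
  have h5 : n < 1 := by exact_mod_cast h3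
  have h6 : -1 < n := by exact_mod_cast h4
  have h7 : n = 0 := by omega
  rw [h1, h7]
  simp

theorem not_integrable (h0 : 0 < α) (h1 : α < 1) (hclosed : IsClosed (EE α)) :
    ¬ IntegrableOn (fun θ : ℝ => infDist (ex θ) (EE α) ^ (-α)) (Set.Ioc 0 (2 * Real.pi)) := by
  intro hint
  have h2 := hint.2
  have hd := diverges α h0 h1
  unfold HasFiniteIntegral at h2
  have h3 : ∫⁻ θ in Set.Ioc 0 (2 * Real.pi), (ENNReal.ofReal (infDist (ex θ) (EE α))) ^ (-α) =
      ∫⁻ θ in Set.Ioc 0 (2 * Real.pi), ‖infDist (ex θ) (EE α) ^ (-α)‖ₑ := by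
    apply setLIntegral_congr_fun_ae measurableSet_Ioc
    set B : Set ℝ := {θ | θ ∈ Set.Ioc 0 (2 * Real.pi) ∧ ex θ ∈ EE α} with hB
    have hBc : B.Countable := by
      apply Set.MapsTo.countable_of_injOn (f := ex) (t := EE α)
      · intro θ hθ
        exact hθ.2
      · intro x hx y hy h
        exact ex_injOn hx.1 hy.1 h
      · exact EE_countable α
    have hB0 : volume B = 0 := hBc.measure_zero _
    have hae : ∀ᵐ θ : ℝ, θ ∉ B := measure_eq_zero_iff_ae_notMem.1 hB0
    filter_upwards [hae] with θ hθ hθI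
    have hnot : ex θ ∉ EE α := fun h => hθ ⟨hθI, h⟩
    have hne : (EE α).Nonempty := ⟨1, Or.inl rfl⟩
    have hpos : 0 < infDist (ex θ) (EE α) := (hclosed.notMem_iff_infDist_pos hne).1 hnot
    rw [ENNReal.ofReal_rpow_of_pos hpos, Real.enorm_eq_ofReal (by positivity)]
  rw [← h3, hd] at h2
  exact lt_irrefl _ h2

end Pool.Agent.J4H86.PK
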